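import Pool.Agent.K9h81.CT.Model

/-!
# Graded homomorphisms between the model groups preserve a cross-ratio
-/

set_option autoImplicit false

namespace Pool.Agent.K9h81.CT

open Nil

/-- the four directions in the centre -/
def vv (l : ℝ) : Fin 4 → W2 := ![(1, 0), (0, 1), (1, 1), (1, l)]

/-- the determinant -/
def dt (a b : W2) : ℝ := a.1 * b.2 - a.2 * b.1

/-- the possible parameters of the groups which are isomorphic to a given one -/
noncomputable def hh (l : ℝ) (σ : Fin 4 → Fin 4) : ℝ :=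
  (dt (vv l (σ 0)) (vv l (σ 3)) * dt (vv l (σ 1)) (vv l (σ 2))) /
    (dt (vv l (σ 1)) (vv l (σ 3)) * dt (vv l (σ 0)) (vv l (σ 2)))

/-- first basis vector of the plane `i` -/
def ex (i : Fin 4) : V8 := Pi.single i (1, 0)
/-- second basis vector of the plane `i` -/
def ey (i : Fin 4) : V8 := Pi.single i (0, 1)

theorem ar_ey (i j : Fin 4) (v : V8) : ar i v (ey j) = if i = j then (v j).1 else 0 := by
  unfold ar ey
  by_cases h : i = j
  · subst h; simp
  · simp [h]

theorem ar_ex (i j : Fin 4) (v : V8) : ar i v (ex j) = if i = j then -(v j).2 else 0 := by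
  unfold ar ex
  by_cases h : i = j
  · subst h; simp
  · simp [h]

theorem ar_ex' (i j : Fin 4) (v : V8) : ar i (ex j) v = if i = j then (v j).2 else 0 := by
  unfold ar ex
  by_cases h : i = j
  · subst h; simp
  · simp [h]

theorem om_ey (l : Set.Ioo (0 : ℝ) 1) (j : Fin 4) (v : V8) :
    (dat l).om v (ey j) = ((v j).1 / 3) • vv l j := by
  rw [dat_om]
  simp only [ar_ey]
  fin_cases j <;> (ext <;> simp [vv] <;> ring)

theorem om_ex (l : Set.Ioo (0 : ℝ) 1) (j : Fin 4) (v : V8) :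
    (dat l).om v (ex j) = (-(v j).2 / 3) • vv l j := by
  rw [dat_om]
  simp only [ar_ex]
  fin_cases j <;> (ext <;> simp [vv] <;> ring)

theorem om_ex' (l : Set.Ioo (0 : ℝ) 1) (j : Fin 4) (v : V8) :
    (dat l).om (ex j) v = ((v j).2 / 3) • vv l j := by
  rw [dat_om]
  simp only [ar_ex']
  fin_cases j <;> (ext <;> simp [vv] <;> ring)

theorem par {u w : W2} (h : dt u w = 0) (hw : w ≠ 0) : ∃ m : ℝ, u = m • w := by
  unfold dt at h
  by_cases h1 : w.1 = 0
  · have h2 : w.2 ≠ 0 := fun h2 => hw (Prod.ext h1 h2)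
    refine ⟨u.2 / w.2, ?_⟩
    rw [h1, mul_zero, sub_zero, mul_eq_zero, or_iff_left h2] at h
    ext
    · simp [h, h1]
    · simp [h2]
  · refine ⟨u.1 / w.1, ?_⟩
    ext
    · simp [h1]
    · simp only [Prod.smul_snd, smul_eq_mul]
      field_simp
      linarith

theorem dt_smul (a b : ℝ) (u w : W2) : dt (a • u) (b • w) = a * b * dt u w := by
  simp only [dt, Prod.smul_fst, Prod.smul_snd, smul_eq_mul]
  ring

theorem vv_ne (l : ℝ) (i : Fin 4) : vv l i ≠ 0 := by
  intro h
  have h1 := congrArg Prod.fst h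
  have h2 := congrArg Prod.snd h
  fin_cases i <;> simp [vv] at h1 h2

/-- A graded injective homomorphism between model groups restricts the parameters. -/
theorem cross {l l' : Set.Ioo (0 : ℝ) 1} {A : V8 →ₗ[ℝ] V8} {F : Nil (dat l) →* Nil (dat l')}
    (hF : Function.Injective F) (hA : ∀ a, F (hz (dat l) a) = hz (dat l') (A a)) :
    (l' : ℝ) ∈ Set.range (hh l) := by
  have hcomm : ∀ a b : V8, F (cz (dat l) ((2 : ℝ) • (dat l).om a b)) =
      cz (dat l') ((2 : ℝ) • (dat l').om (A a) (A b)) := by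
    intro a b
    rw [← comm_hz, ← comm_hz]
    simp only [map_mul, hA, map_neg]
  set U0 : W2 := (3 : ℝ) • (dat l').om (A (ex 0)) (A (ey 0)) with hU0
  set U1 : W2 := (3 : ℝ) • (dat l').om (A (ex 1)) (A (ey 1)) with hU1
  have hFc : ∀ c : W2, F (cz (dat l) c) = cz (dat l') (c.1 • U0 + c.2 • U1) := by
    intro c
    have e : c = (2 : ℝ) • (dat l).om ((3 * c.1 / 2) • ex 0) (ey 0) +
        (2 : ℝ) • (dat l).om ((3 * c.2 / 2) • ex 1) (ey 1) := by
      rw [om_ey, om_ey]
      ext <;> simp [vv, ex] <;> ring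
    conv_lhs => rw [e]
    rw [← cz_mul, map_mul, hcomm, hcomm, cz_mul]
    congr 1
    rw [hU0, hU1]
    simp only [map_smul, LinearMap.smul_apply, smul_smul]
    congr 2 <;> ring
  set Ml : W2 → W2 := fun c => c.1 • U0 + c.2 • U1 with hMl
  have hcz : Function.Injective (cz (dat l')) := fun a b h => congrArg Nil.z h
  have hkey : ∀ a b : V8, (dat l').om (A a) (A b) = Ml ((dat l).om a b) := by
    intro a b
    have h1 := hcomm a b
    rw [hFc] at h1
    have h2 := hcz h1
    have h3 : (2 : ℝ) • Ml ((dat l).om a b) = (2 : ℝ) • (dat l').om (A a) (A b) := by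
      rw [← h2]
      simp only [hMl, smul_add, Prod.smul_fst, Prod.smul_snd, smul_eq_mul, smul_smul]
    exact (smul_right_injective W2 (two_ne_zero : (2 : ℝ) ≠ 0) h3).symm
  have hMl0 : ∀ c, Ml c = 0 → c = 0 := by
    intro c hc
    have h1 : F (cz (dat l) c) = 1 := by
      rw [hFc]
      have : c.1 • U0 + c.2 • U1 = 0 := hc
      rw [this]
      rfl
    have h2 : cz (dat l) c = 1 := hF (h1.trans (map_one F).symm)
    exact congrArg Nil.z h2
  have hMsm : ∀ (t : ℝ) (c : W2), Ml (t • c) = t • Ml c := by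
    intro t c
    simp only [hMl, smul_add, Prod.smul_fst, Prod.smul_snd, smul_eq_mul, smul_smul]
  have hdt : ∀ a b, dt (Ml a) (Ml b) = dt U0 U1 * dt a b := by
    intro a b
    simp only [hMl, dt, Prod.fst_add, Prod.snd_add, Prod.smul_fst, Prod.smul_snd, smul_eq_mul]
    ring
  have hAinj : Function.Injective A := by
    rw [← LinearMap.ker_eq_bot, LinearMap.ker_eq_bot']
    intro a ha
    have h1 : F (hz (dat l) a) = 1 := by rw [hA, ha]; rfl
    have h2 : hz (dat l) a = 1 := hF (h1.trans (map_one F).symm)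
    exact congrArg Nil.v h2
  have hAsurj : Function.Surjective A := LinearMap.injective_iff_surjective.1 hAinj
  have hσ : ∀ i : Fin 4, ∃ j : Fin 4, dt (Ml (vv l j)) (vv l' i) = 0 := by
    intro i
    obtain ⟨r, hr⟩ := hAsurj (ex i)
    have hr0 : r ≠ 0 := by
      rintro rfl
      rw [map_zero] at hr
      have := congrArg (fun v : V8 => (v i).1) hr
      simp [ex] at this
    obtain ⟨j, hj⟩ : ∃ j, r j ≠ 0 := by
      by_contra hcon
      push Not at hcon
      exact hr0 (funext hcon)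
    refine ⟨j, ?_⟩
    have hk : ∀ b, ((A b i).2 / 3) • vv l' i = Ml ((dat l).om r b) := by
      intro b
      rw [← hkey, hr, om_ex']
    have hfin : ∀ (x y : ℝ), x ≠ 0 → y • vv l' i = x • Ml (vv l j) →
        dt (Ml (vv l j)) (vv l' i) = 0 := by
      intro x y hx hxy
      have h1 : Ml (vv l j) = (y / x) • vv l' i := by
        rw [div_eq_inv_mul, mul_smul, hxy, smul_smul, inv_mul_cancel₀ hx, one_smul]
      rw [h1]
      simp only [dt, Prod.smul_fst, Prod.smul_snd, smul_eq_mul]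
      ring
    by_cases h1 : (r j).1 = 0
    · have h2 : (r j).2 ≠ 0 := fun h2 => hj (Prod.ext h1 h2)
      have h3 := hk (ex j)
      rw [om_ex, hMsm] at h3
      exact hfin _ _ (by simpa using h2) h3
    · have h3 := hk (ey j)
      rw [om_ey, hMsm] at h3
      exact hfin _ _ (by simpa using h1) h3
  choose σ hσ' using hσ
  have hpar : ∀ i, ∃ m : ℝ, Ml (vv l (σ i)) = m • vv l' i := fun i => par (hσ' i) (vv_ne _ _)
  choose m hm using hpar
  have hm0 : ∀ i, m i ≠ 0 := by
    intro i h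
    have h1 := hm i
    rw [h, zero_smul] at h1
    exact vv_ne _ _ (hMl0 _ h1)
  have hd : ∀ i j, dt U0 U1 * dt (vv l (σ i)) (vv l (σ j)) = m i * m j * dt (vv l' i) (vv l' j) := by
    intro i j
    rw [← hdt, hm i, hm j, dt_smul]
  have e03 := hd 0 3
  have e12 := hd 1 2
  have e13 := hd 1 3
  have e02 := hd 0 2
  have w03 : dt (vv l' 0) (vv l' 3) = l' := by simp [dt, vv]
  have w12 : dt (vv l' 1) (vv l' 2) = -1 := by simp [dt, vv]
  have w13 : dt (vv l' 1) (vv l' 3) = -1 := by simp [dt, vv]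
  have w02 : dt (vv l' 0) (vv l' 2) = 1 := by simp [dt, vv]
  rw [w03] at e03
  rw [w12] at e12
  rw [w13] at e13
  rw [w02] at e02
  have hΔ : dt U0 U1 ≠ 0 := by
    intro h
    rw [h, zero_mul] at e02
    have := mul_ne_zero (hm0 0) (hm0 2)
    apply this
    linarith
  have hden : dt (vv l (σ 1)) (vv l (σ 3)) * dt (vv l (σ 0)) (vv l (σ 2)) ≠ 0 := by
    intro h
    have h1 : (dt U0 U1 * dt (vv l (σ 1)) (vv l (σ 3))) * (dt U0 U1 * dt (vv l (σ 0)) (vv l (σ 2)))
        = 0 := by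
      calc _ = dt U0 U1 * dt U0 U1 * (dt (vv l (σ 1)) (vv l (σ 3)) * dt (vv l (σ 0)) (vv l (σ 2))) := by
            ring
        _ = 0 := by rw [h, mul_zero]
    rw [e13, e02] at h1
    have h2 : m 1 * m 3 * -1 * (m 0 * m 2 * 1) = -(m 0 * m 1 * m 2 * m 3) := by ring
    rw [h2, neg_eq_zero] at h1
    exact mul_ne_zero (mul_ne_zero (mul_ne_zero (hm0 0) (hm0 1)) (hm0 2)) (hm0 3) h1
  refine ⟨σ, ?_⟩
  unfold hh
  rw [div_eq_iff hden]
  have hΔ2 : dt U0 U1 * dt U0 U1 ≠ 0 := mul_ne_zero hΔ hΔ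
  apply mul_left_cancel₀ hΔ2
  calc dt U0 U1 * dt U0 U1 * (dt (vv l (σ 0)) (vv l (σ 3)) * dt (vv l (σ 1)) (vv l (σ 2)))
      = (dt U0 U1 * dt (vv l (σ 0)) (vv l (σ 3))) * (dt U0 U1 * dt (vv l (σ 1)) (vv l (σ 2))) := by
        ring
    _ = l' * ((dt U0 U1 * dt (vv l (σ 1)) (vv l (σ 3))) *
          (dt U0 U1 * dt (vv l (σ 0)) (vv l (σ 2)))) := by
        rw [e03, e12, e13, e02]; ring
    _ = _ := by ring

end Pool.Agent.K9h81.CT
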