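import Pool.Agent.K9h81.CT.Mean

/-!
# Blowing down quasi-isometric embeddings of two-step groups

A quasi-isometric embedding between two-step groups yields an injective graded homomorphism.
-/

set_option autoImplicit false

namespace Pool.Agent.K9h81.CT

open Nil Filter Topology

variable {V W V' W' : Type} [NormedAddCommGroup V] [NormedSpace ℝ V] [NormedAddCommGroup W]
  [NormedSpace ℝ W] [NormedAddCommGroup V'] [NormedSpace ℝ V'] [NormedAddCommGroup W']
  [NormedSpace ℝ W'] {D : Dat V W} {D' : Dat V' W'}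

/-- the rescaled map -/
noncomputable def blow (f : Nil D → Nil D') (s : ℝ) (p g : Nil D) : Nil D' :=
  dil (1 / s) ((f p)⁻¹ * f (p * dil s g))

theorem blow_one (f : Nil D → Nil D') (s : ℝ) (p : Nil D) : blow f s p 1 = 1 := by
  simp [blow]

theorem blow_v (f : Nil D → Nil D') (s : ℝ) (p g : Nil D) :
    (blow f s p g).v = (1 / s) • ((f (p * dil s g)).v - (f p).v) := by
  simp [blow, neg_add_eq_sub]

theorem blow_dd (f : Nil D → Nil D') {s : ℝ} (hs : 0 < s) (p g h : Nil D) :
    dd (blow f s p g) (blow f s p h) = 1 / s * dd (f (p * dil s g)) (f (p * dil s h)) := by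
  unfold blow
  rw [dd_dil (by positivity), dd_mul_left]

theorem blow_le {f : Nil D → Nil D'} {K C : ℝ} (hf : QE f K C) {s : ℝ} (hs : 0 < s)
    (p g h : Nil D) : dd (blow f s p g) (blow f s p h) ≤ K * dd g h + C / s ∧
      dd g h ≤ K * dd (blow f s p g) (blow f s p h) + C / s := by
  rw [blow_dd f hs]
  obtain ⟨h1, h2⟩ := hf (p * dil s g) (p * dil s h)
  rw [dd_mul_left, dd_dil hs.le] at h1 h2
  constructor
  · rw [one_div, inv_mul_le_iff₀ hs]
    have e : s * (K * dd g h + C / s) = K * (s * dd g h) + C := by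
      field_simp
    rw [e]; exact h1
  · have e : K * (1 / s * dd (f (p * dil s g)) (f (p * dil s h))) + C / s =
        (K * dd (f (p * dil s g)) (f (p * dil s h)) + C) / s := by
      field_simp
    rw [e, le_div_iff₀ hs, mul_comm]
    exact h2

theorem exists_lim {I E : Type} [NormedAddCommGroup E] [ProperSpace E] (𝒰 : Ultrafilter I)
    (x : I → E) (B : ℝ) (hB : ∀ i, ‖x i‖ ≤ B) : ∃ l, Tendsto x 𝒰 (𝓝 l) := by
  have hmem : Metric.closedBall (0 : E) B ∈ (𝒰.map x : Filter E) := by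
    rw [Ultrafilter.coe_map, Filter.mem_map]
    exact Filter.Eventually.of_forall fun i => by simpa using hB i
  obtain ⟨l, -, hl⟩ := (isCompact_closedBall (0 : E) B).ultrafilter_le_nhds' (𝒰.map x) hmem
  exact ⟨l, hl⟩

theorem tendsto_dd {I : Type} {l : Filter I} {x y : I → Nil D'} {a b : Nil D'}
    (h1 : Tendsto (fun i => (x i).v) l (𝓝 a.v)) (h2 : Tendsto (fun i => (x i).z) l (𝓝 a.z))
    (h3 : Tendsto (fun i => (y i).v) l (𝓝 b.v)) (h4 : Tendsto (fun i => (y i).z) l (𝓝 b.z)) :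
    Tendsto (fun i => dd (x i) (y i)) l (𝓝 (dd a b)) := by
  have hc : Continuous fun q : V' × V' => D'.om q.1 q.2 :=
    (LinearMap.mkContinuous₂ D'.om 2 D'.bd).continuous₂
  have h5 : Tendsto (fun i => D'.om (-(x i).v) (y i).v) l (𝓝 (D'.om (-a.v) b.v)) :=
    (hc.tendsto (-a.v, b.v)).comp (h1.neg.prodMk_nhds h3)
  have h6 : Tendsto (fun i => max ‖-(x i).v + (y i).v‖
      (√‖-(x i).z + (y i).z + D'.om (-(x i).v) (y i).v‖)) l
      (𝓝 (max ‖-a.v + b.v‖ (√‖-a.z + b.z + D'.om (-a.v) b.v‖))) :=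
    (h1.neg.add h3).norm.max (((h2.neg.add h4).add h5).norm.sqrt)
  exact h6

/-- finite sets of tests, with an error -/
abbrev Tst {V W : Type} [NormedAddCommGroup V] [NormedSpace ℝ V] [NormedAddCommGroup W]
    [NormedSpace ℝ W] (D : Dat V W) (V' : Type) [NormedAddCommGroup V'] [NormedSpace ℝ V'] : Type :=
  Finset (Nil D × V × (V' →L[ℝ] ℝ)) × ℕ

/-- A blow-down of a quasi-isometric embedding whose horizontal part is additive. -/
theorem exists_blowdown [FiniteDimensional ℝ V'] [FiniteDimensional ℝ W'] {f : Nil D → Nil D'}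
    {K C : ℝ} (hK : 0 ≤ K) (hC : 0 ≤ C) (hf : QE f K C) :
    ∃ F : Nil D → Nil D', (∀ g h, dd (F g) (F h) ≤ K * dd g h) ∧
      (∀ g h, dd g h ≤ K * dd (F g) (F h)) ∧ F 1 = 1 ∧
      ∀ g a, (F (g * hz D a)).v = (F g).v + (F (hz D a)).v := by
  classical
  have : ProperSpace V' := FiniteDimensional.proper ℝ V'
  have : ProperSpace W' := FiniteDimensional.proper ℝ W'
  have hCL : ∀ l : V' →L[ℝ] ℝ, ∃ K C, CL (D := D) (fun p => l (f p).v) K C := by
    intro l
    refine ⟨‖l‖ * K, ‖l‖ * C, by positivity, by positivity, fun p q => ?_⟩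
    rw [← map_sub]
    have h1 : ‖(f p).v - (f q).v‖ ≤ dd (f p) (f q) := by
      have := v_le ((f p)⁻¹ * f q)
      rw [mul_v, inv_v, neg_add_eq_sub, norm_sub_rev] at this
      exact this
    calc |l ((f p).v - (f q).v)| ≤ ‖l‖ * ‖(f p).v - (f q).v‖ := l.le_opNorm _
      _ ≤ ‖l‖ * (K * dd p q + C) := by
        have := (hf p q).1
        gcongr
        exact h1.trans this
      _ = _ := by ring
  have hen := fun i : Finset (Nil D × V × (V' →L[ℝ] ℝ)) × ℕ =>
    energy D (fun (l : V' →L[ℝ] ℝ) (p : Nil D) => l (f p).v) hCL i.1 (1 / (i.2 + 1))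
      (by positivity) i.2
  choose n p hn hp using hen
  let 𝒰 : Ultrafilter (Tst D V') := Ultrafilter.of atTop
  have h𝒰 : (𝒰 : Filter (Tst D V')) ≤ atTop :=
    Ultrafilter.of_le atTop
  have hs : ∀ i, (0 : ℝ) < 2 ^ n i := fun i => by positivity
  have hs1 : ∀ i, (1 : ℝ) ≤ 2 ^ n i := fun i => one_le_pow₀ (by norm_num)
  -- the scales tend to infinity
  have hsi : ∀ B : ℝ, ∀ᶠ i in (𝒰 : Filter (Tst D V')), B ≤ (i.2 : ℝ) := by
    intro B
    obtain ⟨N, hN⟩ := exists_nat_ge B
    apply h𝒰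
    filter_upwards [eventually_ge_atTop ((∅, N) : Finset (Nil D × V × (V' →L[ℝ] ℝ)) × ℕ)] with i hi
    exact hN.trans (by exact_mod_cast hi.2)
  have hdiv : ∀ δ : ℝ, 0 < δ → ∀ᶠ i in (𝒰 : Filter (Tst D V')), C / 2 ^ n i ≤ δ := by
    intro δ hδ
    filter_upwards [hsi (C / δ)] with i hi
    have h1 : (i.2 : ℝ) ≤ 2 ^ n i := by
      have h2 : i.2 < 2 ^ i.2 := Nat.lt_two_pow_self
      have h3 : 2 ^ i.2 ≤ 2 ^ n i := Nat.pow_le_pow_right (by norm_num) (hn i)
      exact_mod_cast (h2.le.trans h3)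
    rw [div_le_iff₀ (hs i)]
    rw [div_le_iff₀ hδ] at hi
    nlinarith
  -- the limits
  have hbd : ∀ i g, (blow f (2 ^ n i) (p i) g).nm ≤ K * g.nm + C := by
    intro i g
    have h1 := (blow_le hf (hs i) (p i) 1 g).1
    rw [blow_one, one_dd, one_dd] at h1
    have h2 : C / 2 ^ n i ≤ C := div_le_self hC (hs1 i)
    linarith
  have hv : ∀ g, ∃ l, Tendsto (fun i => (blow f (2 ^ n i) (p i) g).v) 𝒰 (𝓝 l) := fun g =>
    exists_lim 𝒰 _ (K * g.nm + C) fun i => (v_le _).trans (hbd i g)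
  have hz' : ∀ g, ∃ l, Tendsto (fun i => (blow f (2 ^ n i) (p i) g).z) 𝒰 (𝓝 l) := fun g =>
    exists_lim 𝒰 _ ((K * g.nm + C) ^ 2) fun i => (z_le _).trans
      (pow_le_pow_left₀ (nm_nonneg _) (hbd i g) 2)
  choose Fv hFv using hv
  choose Fz hFz using hz'
  have hdd : ∀ g h, Tendsto (fun i => dd (blow f (2 ^ n i) (p i) g) (blow f (2 ^ n i) (p i) h)) 𝒰
      (𝓝 (dd (⟨Fv g, Fz g⟩ : Nil D') ⟨Fv h, Fz h⟩)) := fun g h =>
    tendsto_dd (hFv g) (hFz g) (hFv h) (hFz h)
  refine ⟨fun g => ⟨Fv g, Fz g⟩, ?_, ?_, ?_, ?_⟩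
  · intro g h
    refine le_of_forall_pos_le_add fun δ hδ => ?_
    refine le_of_tendsto (hdd g h) ?_
    filter_upwards [hdiv δ hδ] with i hi
    exact (blow_le hf (hs i) (p i) g h).1.trans (by linarith)
  · intro g h
    refine le_of_forall_pos_le_add fun δ hδ => ?_
    refine ge_of_tendsto (((hdd g h).const_mul K).add_const δ) ?_
    filter_upwards [hdiv δ hδ] with i hi
    exact (blow_le hf (hs i) (p i) g h).2.trans (by linarith)
  · have h1 := hFv 1
    have h2 := hFz 1
    simp only [blow_one, one_v, one_z] at h1 h2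
    ext1
    · exact tendsto_nhds_unique h1 tendsto_const_nhds |>.trans rfl
    · exact tendsto_nhds_unique h2 tendsto_const_nhds |>.trans rfl
  · intro g a
    show Fv (g * hz D a) = Fv g + Fv (hz D a)
    rw [← sub_eq_zero, ← sub_sub]
    refine SeparatingDual.eq_zero_of_forall_dual_eq_zero (R := ℝ) fun l => ?_
    have h1 : Tendsto (fun i => l ((blow f (2 ^ n i) (p i) (g * hz D a)).v -
        (blow f (2 ^ n i) (p i) g).v - (blow f (2 ^ n i) (p i) (hz D a)).v)) 𝒰
        (𝓝 (l (Fv (g * hz D a) - Fv g - Fv (hz D a)))) :=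
      (l.continuous.tendsto _).comp (((hFv _).sub (hFv _)).sub (hFv _))
    have h2 : ∀ᶠ i in (𝒰 : Filter (Tst D V')), |l ((blow f (2 ^ n i) (p i) (g * hz D a)).v -
        (blow f (2 ^ n i) (p i) g).v - (blow f (2 ^ n i) (p i) (hz D a)).v)| ≤ 1 / (i.2 + 1) := by
      apply h𝒰
      filter_upwards [eventually_ge_atTop (({(g, a, l)}, 0) :
        Finset (Nil D × V × (V' →L[ℝ] ℝ)) × ℕ)] with i hi
      have h3 := hp i (g, a, l) (hi.1 (Finset.mem_singleton_self _))
      simp only at h3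
      have e : l ((blow f (2 ^ n i) (p i) (g * hz D a)).v -
        (blow f (2 ^ n i) (p i) g).v - (blow f (2 ^ n i) (p i) (hz D a)).v) =
        (1 / 2 ^ n i) * ((l (f (p i * dil (2 ^ n i) (g * hz D a))).v -
          l (f (p i * dil (2 ^ n i) g)).v) -
          (l (f (p i * dil (2 ^ n i) (hz D a))).v - l (f (p i)).v)) := by
        rw [blow_v, blow_v, blow_v]
        simp only [map_sub, map_smul, smul_eq_mul]
        ring
      rw [e, abs_mul, abs_of_pos (by positivity : (0 : ℝ) < 1 / 2 ^ n i), one_div,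
        inv_mul_le_iff₀ (hs i), mul_comm]
      simpa using h3
    have h3 : Tendsto (fun i => |l ((blow f (2 ^ n i) (p i) (g * hz D a)).v -
        (blow f (2 ^ n i) (p i) g).v - (blow f (2 ^ n i) (p i) (hz D a)).v)|) 𝒰
        (𝓝 |l (Fv (g * hz D a) - Fv g - Fv (hz D a))|) := h1.abs
    have h4 : |l (Fv (g * hz D a) - Fv g - Fv (hz D a))| ≤ 0 := by
      refine le_of_forall_pos_le_add fun δ hδ => ?_
      rw [zero_add]
      refine le_of_tendsto h3 ?_
      filter_upwards [h2, hsi (1 / δ)] with i hi hi'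
      refine hi.trans ?_
      rw [div_le_iff₀ (by positivity)]
      rw [div_le_iff₀ hδ] at hi'
      nlinarith
    simpa using h4

/-- the centre consists of products of two commutators of horizontal elements -/
def Gen (D : Dat V W) : Prop :=
  ∀ c : W, ∃ a b a' b' : V, c = (2 : ℝ) • D.om a b + (2 : ℝ) • D.om a' b'

theorem horizontal {F : Nil D → Nil D'} {K : ℝ}
    (h1 : ∀ g h, dd (F g) (F h) ≤ K * dd g h)
    (h4 : ∀ g a, (F (g * hz D a)).v = (F g).v + (F (hz D a)).v) (g : Nil D) (a : V) :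
    F (g * hz D a) = F g * hz D' (F (hz D a)).v := by
  -- the vertical part of increments
  have hstep : ∀ (g : Nil D) (b : V), ‖((F g)⁻¹ * F (g * hz D b)).z‖ ≤ (K * ‖b‖) ^ 2 := by
    intro g b
    refine (z_le _).trans (pow_le_pow_left₀ (nm_nonneg _) ?_ 2)
    have := h1 g (g * hz D b)
    rw [dd_mul_right, nm_hz] at this
    exact this
  have hmany : ∀ (b : V) (j : ℕ), ((F g)⁻¹ * F (g * hz D ((j : ℝ) • b))).v =
      (j : ℝ) • (F (hz D b)).v ∧
      ‖((F g)⁻¹ * F (g * hz D ((j : ℝ) • b))).z‖ ≤ j * (K * ‖b‖) ^ 2 := by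
    intro b j
    induction j with
    | zero => simp
    | succ j ih =>
      obtain ⟨i1, i2⟩ := ih
      set k : Nil D := g * hz D ((j : ℝ) • b) with hk
      have e1 : g * hz D (((j + 1 : ℕ) : ℝ) • b) = k * hz D b := by
        rw [hk, mul_assoc]
        congr 1
        have := hz_smul_mul (D := D) (j : ℝ) 1 b
        rw [one_smul] at this
        rw [this]
        push_cast
        rfl
      have e2 : (F g)⁻¹ * F (k * hz D b) = ((F g)⁻¹ * F k) * ((F k)⁻¹ * F (k * hz D b)) := by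
        group
      have e3 : ((F k)⁻¹ * F (k * hz D b)).v = (F (hz D b)).v := by
        rw [mul_v, inv_v, h4 k b]
        abel
      rw [e1, e2]
      constructor
      · rw [mul_v, i1, e3]
        push_cast
        rw [add_smul, one_smul]
      · rw [mul_z, i1, e3, map_smul, LinearMap.smul_apply, D'.alt, smul_zero, add_zero]
        refine (norm_add_le _ _).trans ?_
        push_cast
        have := hstep k b
        linarith
  have hz0 : ((F g)⁻¹ * F (g * hz D a)).z = 0 := by
    rw [← norm_le_zero_iff]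
    refine le_of_forall_pos_le_add fun δ hδ => ?_
    rw [zero_add]
    obtain ⟨n, hn⟩ := exists_nat_gt ((K * ‖a‖) ^ 2 / δ)
    have hn0 : (0 : ℝ) < n := lt_of_le_of_lt (by positivity) hn
    have := (hmany ((1 / (n : ℝ)) • a) n).2
    rw [smul_smul, mul_one_div_cancel hn0.ne', one_smul, norm_smul,
      Real.norm_of_nonneg (by positivity : (0 : ℝ) ≤ 1 / n)] at this
    refine this.trans ?_
    have e : (n : ℝ) * (K * (1 / n * ‖a‖)) ^ 2 = (K * ‖a‖) ^ 2 / n := by
      field_simp
    rw [e, div_le_iff₀ hn0]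
    rw [div_lt_iff₀ hδ] at hn
    linarith
  have hv0 : ((F g)⁻¹ * F (g * hz D a)).v = (F (hz D a)).v := by
    rw [mul_v, inv_v, h4]
    abel
  have : (F g)⁻¹ * F (g * hz D a) = hz D' (F (hz D a)).v := by
    ext1
    · rw [hv0, hz_v]
    · rw [hz0, hz_z]
  rw [← this]
  group

theorem cz_eq (a b a' b' : V) :
    cz D ((2 : ℝ) • D.om a b + (2 : ℝ) • D.om a' b') =
      (hz D a * hz D b * hz D (-a) * hz D (-b)) *
        (hz D a' * hz D b' * hz D (-a') * hz D (-b')) := by
  rw [comm_hz, comm_hz, cz_mul]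

/-- **Rigidity.** A quasi-isometric embedding of two-step groups yields an injective homomorphism
which maps horizontal elements to horizontal elements linearly. -/
theorem rigid [FiniteDimensional ℝ V'] [FiniteDimensional ℝ W'] (hG : Gen D)
    {f : Nil D → Nil D'} {K C : ℝ} (hK : 0 ≤ K) (hC : 0 ≤ C) (hf : QE f K C) :
    ∃ (A : V →ₗ[ℝ] V') (F : Nil D →* Nil D'), Function.Injective F ∧
      ∀ a, F (hz D a) = hz D' (A a) := by
  obtain ⟨F, h1, h2, h3, h4⟩ := exists_blowdown hK hC hf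
  have hh := horizontal h1 h4
  have hh1 : ∀ a, F (hz D a) = hz D' (F (hz D a)).v := by
    intro a
    have := hh 1 a
    rwa [one_mul, h3, one_mul] at this
  -- the set of elements on which `F` is multiplicative
  have hP : ∀ h g : Nil D, F (g * h) = F g * F h := by
    have p1 : ∀ a g, F (g * hz D a) = F g * F (hz D a) := by
      intro a g
      rw [hh g a, ← hh1 a]
    have p2 : ∀ x y : Nil D, (∀ g, F (g * x) = F g * F x) → (∀ g, F (g * y) = F g * F y) →
        ∀ g, F (g * (x * y)) = F g * F (x * y) := by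
      intro x y hx hy g
      rw [← mul_assoc, hy, hx, hy, mul_assoc]
    intro h
    obtain ⟨a, b, a', b', hc⟩ := hG h.z
    have e : h = hz D h.v * cz D h.z := by
      rw [hz_mul_cz]
    rw [e, hc, cz_eq]
    refine p2 _ _ (p1 _) (p2 _ _ ?_ ?_)
    · exact p2 _ _ (p2 _ _ (p2 _ _ (p1 _) (p1 _)) (p1 _)) (p1 _)
    · exact p2 _ _ (p2 _ _ (p2 _ _ (p1 _) (p1 _)) (p1 _)) (p1 _)
  let F' : Nil D →* Nil D' := { toFun := F, map_one' := h3, map_mul' := fun x y => hP y x }
  have hF' : ∀ x, F' x = F x := fun _ => rfl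
  have hneg : ∀ a, (F (hz D (-a))).v = -(F (hz D a)).v := by
    intro a
    have : F (hz D (-a)) = (F (hz D a))⁻¹ := by
      rw [← hz_inv, ← hF', map_inv]
      rfl
    rw [this, inv_v]
  have hcz : ∀ c, (F (cz D c)).v = 0 := by
    intro c
    obtain ⟨a, b, a', b', hc⟩ := hG c
    rw [hc, cz_eq]
    simp only [hP, mul_v, hneg]
    abel
  have hadd : ∀ a b, (F (hz D (a + b))).v = (F (hz D a)).v + (F (hz D b)).v := by
    intro a b
    have e : hz D (a + b) * cz D (D.om a b) = hz D a * hz D b := by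
      ext1 <;> simp
    have := congrArg (fun x => (F x).v) e
    simp only [hP, mul_v, hcz, add_zero] at this
    exact this
  have hLip : ∀ a, ‖(F (hz D a)).v‖ ≤ K * ‖a‖ := by
    intro a
    have := h1 1 (hz D a)
    rw [h3, one_dd, one_dd, nm_hz] at this
    exact (v_le _).trans this
  let A₀ : V →+ V' :=
    { toFun := fun a => (F (hz D a)).v
      map_zero' := by simp [h3]
      map_add' := hadd }
  have hA₀ : Continuous A₀ := by
    refine AddMonoidHomClass.continuous_of_bound A₀ K fun x => hLip x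
  refine ⟨(A₀.toRealLinearMap hA₀ : V →L[ℝ] V').toLinearMap, F', ?_, fun a => hh1 a⟩
  intro x y hxy
  apply eq_of_dd
  have := h2 x y
  have hxy' : F x = F y := hxy
  rw [hxy', dd_self, mul_zero] at this
  exact le_antisymm this (dd_nonneg _ _)

end Pool.Agent.K9h81.CT
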