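import Mathlib

/-!
# Cayley graphs and words
-/

set_option autoImplicit false

namespace Pool.Agent.K9h81.CT

variable {H : Type} [Group H]

/-- the Cayley graph -/
abbrev cay (S : Set H) : SimpleGraph H := SimpleGraph.fromRel (fun g h : H => ∃ s ∈ S, h = g * s)

/-- the elements which are products of at most `n` letters -/
def Wd (S : Set H) (n : ℕ) : Set H :=
  {h | ∃ l : List H, l.length ≤ n ∧ (∀ x ∈ l, x ∈ S ∨ x⁻¹ ∈ S) ∧ l.prod = h}

theorem Wd.one (S : Set H) (n : ℕ) : (1 : H) ∈ Wd S n := ⟨[], by simp, by simp, by simp⟩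

theorem Wd.mono {S : Set H} {m n : ℕ} (h : m ≤ n) : Wd S m ⊆ Wd S n := by
  rintro x ⟨l, h1, h2, h3⟩
  exact ⟨l, h1.trans h, h2, h3⟩

theorem Wd.mul {S : Set H} {m n : ℕ} {x y : H} (hx : x ∈ Wd S m) (hy : y ∈ Wd S n) :
    x * y ∈ Wd S (m + n) := by
  obtain ⟨l, h1, h2, h3⟩ := hx
  obtain ⟨l', h1', h2', h3'⟩ := hy
  refine ⟨l ++ l', by rw [List.length_append]; omega, ?_, by rw [List.prod_append, h3, h3']⟩
  intro z hz
  rcases List.mem_append.1 hz with h | h
  · exact h2 z h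
  · exact h2' z h

theorem Wd.letter {S : Set H} {x : H} (hx : x ∈ S ∨ x⁻¹ ∈ S) : x ∈ Wd S 1 :=
  ⟨[x], by simp, by simpa using hx, by simp⟩

theorem Wd.finite {S : Set H} (hS : S.Finite) (n : ℕ) : (Wd S n).Finite := by
  induction n with
  | zero =>
    refine (Set.finite_singleton (1 : H)).subset ?_
    rintro x ⟨l, h1, -, h3⟩
    have : l = [] := List.length_eq_zero_iff.1 (Nat.le_zero.1 h1)
    rw [this] at h3
    simpa using h3.symm
  | succ n ih =>
    have hT : (S ∪ S⁻¹).Finite := hS.union hS.inv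
    refine ((Set.Finite.image2 (fun a b => a * b) hT ih).union ih).subset ?_
    rintro x ⟨l, h1, h2, h3⟩
    rcases l with _ | ⟨a, l⟩
    · right
      rw [← h3]
      exact Wd.one S n
    · left
      refine ⟨a, ?_, l.prod, ⟨l, ?_, ?_, rfl⟩, ?_⟩
      · rcases h2 a (by simp) with h | h
        · exact Or.inl h
        · exact Or.inr h
      · simpa using h1
      · intro z hz
        exact h2 z (by simp [hz])
      · rw [← h3, List.prod_cons]

theorem cay_adj {S : Set H} {g h : H} (hadj : (cay S).Adj g h) : g⁻¹ * h ∈ Wd S 1 := by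
  rw [SimpleGraph.fromRel_adj] at hadj
  obtain ⟨-, ⟨s, hs, e⟩ | ⟨s, hs, e⟩⟩ := hadj
  · rw [e, inv_mul_cancel_left]
    exact Wd.letter (Or.inl hs)
  · apply Wd.letter
    right
    have e2 : (g⁻¹ * h)⁻¹ = s := by rw [e]; group
    rw [e2]
    exact hs

theorem cay_of_letter {S : Set H} {g x : H} (hx : x ∈ S ∨ x⁻¹ ∈ S) (h1 : x ≠ 1) :
    (cay S).Adj g (g * x) := by
  rw [SimpleGraph.fromRel_adj]
  refine ⟨fun h => h1 ?_, ?_⟩
  · exact (mul_eq_left.1 h.symm)
  · rcases hx with h | h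
    · exact Or.inl ⟨x, h, rfl⟩
    · exact Or.inr ⟨x⁻¹, h, by group⟩

theorem walk_mem {S : Set H} {g h : H} (w : (cay S).Walk g h) : g⁻¹ * h ∈ Wd S w.length := by
  induction w with
  | nil => simp [Wd.one]
  | @cons u v t hadj w ih =>
    have e : u⁻¹ * t = (u⁻¹ * v) * (v⁻¹ * t) := by group
    rw [e, SimpleGraph.Walk.length_cons, add_comm]
    exact Wd.mul (cay_adj hadj) ih

theorem exists_walk {S : Set H} (l : List H) (hl : ∀ x ∈ l, x ∈ S ∨ x⁻¹ ∈ S) (g : H) :
    ∃ w : (cay S).Walk g (g * l.prod), w.length ≤ l.length := by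
  induction l generalizing g with
  | nil =>
    exact ⟨(SimpleGraph.Walk.nil : (cay S).Walk g g).copy rfl (by simp), by
      rw [SimpleGraph.Walk.length_copy]; exact le_rfl⟩
  | cons a l ih =>
    have ih' := fun g => ih (fun x hx => hl x (by simp [hx])) g
    by_cases h1 : a = 1
    · obtain ⟨w, hw⟩ := ih' g
      refine ⟨w.copy rfl (by rw [h1, List.prod_cons, one_mul]), ?_⟩
      rw [SimpleGraph.Walk.length_copy, List.length_cons]
      omega
    · obtain ⟨w, hw⟩ := ih' (g * a)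
      refine ⟨(SimpleGraph.Walk.cons (cay_of_letter (hl a (by simp)) h1) w).copy rfl
        (by rw [List.prod_cons, mul_assoc]), ?_⟩
      rw [SimpleGraph.Walk.length_copy, SimpleGraph.Walk.length_cons, List.length_cons]
      omega

theorem dist_le_of_mem {S : Set H} {g h : H} {n : ℕ} (hm : g⁻¹ * h ∈ Wd S n) :
    (cay S).Reachable g h ∧ (cay S).dist g h ≤ n := by
  obtain ⟨l, h1, h2, h3⟩ := hm
  obtain ⟨w, hw⟩ := exists_walk l h2 g
  have e : g * l.prod = h := by rw [h3]; group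
  refine ⟨(w.copy rfl e).reachable, ?_⟩
  have := SimpleGraph.dist_le (w.copy rfl e)
  rw [SimpleGraph.Walk.length_copy] at this
  omega

theorem exists_Wd {S : Set H} (hS : Subgroup.closure S = ⊤) (h : H) : ∃ n, h ∈ Wd S n := by
  have hh : h ∈ Subgroup.closure S := by rw [hS]; trivial
  induction hh using Subgroup.closure_induction with
  | mem x hx => exact ⟨1, Wd.letter (Or.inl hx)⟩
  | one => exact ⟨0, Wd.one S 0⟩
  | mul x y _ _ ihx ihy =>
    obtain ⟨m, hm⟩ := ihx
    obtain ⟨n, hn⟩ := ihy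
    exact ⟨m + n, Wd.mul hm hn⟩
  | inv x _ ih =>
    obtain ⟨n, l, h1, h2, h3⟩ := ih
    refine ⟨n, (l.map (·⁻¹)).reverse, by simpa using h1, ?_, ?_⟩
    · intro z hz
      simp only [List.mem_reverse, List.mem_map] at hz
      obtain ⟨a, ha, rfl⟩ := hz
      rw [inv_inv]
      exact (h2 a ha).symm
    · rw [← List.prod_inv_reverse, h3]

theorem cay_connected {S : Set H} (hS : Subgroup.closure S = ⊤) : (cay S).Connected := by
  have : Nonempty H := ⟨1⟩
  refine SimpleGraph.Connected.mk fun g h => ?_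
  obtain ⟨n, hn⟩ := exists_Wd hS (g⁻¹ * h)
  exact (dist_le_of_mem hn).1

theorem mem_of_dist {S : Set H} (hS : Subgroup.closure S = ⊤) (g h : H) :
    g⁻¹ * h ∈ Wd S ((cay S).dist g h) := by
  obtain ⟨w, hw⟩ := (cay_connected hS).exists_walk_length_eq_dist g h
  rw [← hw]
  exact walk_mem w

theorem mem_iff {S : Set H} (hS : Subgroup.closure S = ⊤) (g h : H) (n : ℕ) :
    g⁻¹ * h ∈ Wd S n ↔ (cay S).dist g h ≤ n :=
  ⟨fun hm => (dist_le_of_mem hm).2, fun hd => Wd.mono hd (mem_of_dist hS g h)⟩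

/-- isomorphisms are quasi-isometries -/
theorem iso_dist {H' : Type} [Group H'] {S : Set H} {S' : Set H'} (hS : Subgroup.closure S = ⊤)
    (hS' : Subgroup.closure S' = ⊤) (hf : S.Finite) (e : H ≃* H') :
    ∃ k : ℕ, ∀ g h, (cay S').dist (e g) (e h) ≤ k * (cay S).dist g h := by
  classical
  obtain ⟨k, hk⟩ : ∃ k : ℕ, ∀ x, (x ∈ S ∨ x⁻¹ ∈ S) → e x ∈ Wd S' k := by
    have hT : (S ∪ S⁻¹).Finite := hf.union hf.inv
    have h1 : ∀ x : H, ∃ n, e x ∈ Wd S' n := fun x => exists_Wd hS' _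
    choose n hn using h1
    refine ⟨hT.toFinset.sup n, fun x hx => Wd.mono ?_ (hn x)⟩
    apply Finset.le_sup (f := n)
    rw [Set.Finite.mem_toFinset]
    rcases hx with h | h
    · exact Or.inl h
    · exact Or.inr h
  have h2 : ∀ l : List H, (∀ x ∈ l, x ∈ S ∨ x⁻¹ ∈ S) → e l.prod ∈ Wd S' (k * l.length) := by
    intro l
    induction l with
    | nil => intro _; simpa using Wd.one S' 0
    | cons a l ih =>
      intro hl
      rw [List.prod_cons, map_mul, List.length_cons, mul_add, mul_one, add_comm]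
      exact Wd.mul (hk a (hl a (by simp))) (ih fun x hx => hl x (by simp [hx]))
  refine ⟨k, fun g h => ?_⟩
  rw [← mem_iff hS', ← map_inv, ← map_mul]
  obtain ⟨l, l1, l2, l3⟩ := mem_of_dist hS g h
  rw [← l3]
  exact Wd.mono (Nat.mul_le_mul_left _ l1) (h2 l l2)

end Pool.Agent.K9h81.CT
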