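import Pool.Agent.K9h81.CT.Nil
import Pool.Agent.K9h81.CT.Word

/-!
# Groups quasi-isometric to a two-step group are finitely presented
-/

set_option autoImplicit false

namespace Pool.Agent.K9h81.CT

open Nil

variable {H : Type} [Group H]

/-- the development of a path -/
def dev {Q : Type} [Group Q] (β : H → Q) (y : ℕ → H) : ℕ → Q
  | 0 => 1
  | n + 1 => dev β y n * β ((y n)⁻¹ * y (n + 1))

theorem dev_homotopy {Q : Type} [Group Q] (β : H → Q) (B : Set H)
    (hβ : ∀ a ∈ B, ∀ b ∈ B, β (a * b) = β a * β b) (y y' : ℕ → H) (n : ℕ)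
    (h1 : ∀ j < n, (y j)⁻¹ * y (j + 1) ∈ B) (h2 : ∀ j < n, (y' j)⁻¹ * y' (j + 1) ∈ B)
    (h3 : ∀ j ≤ n, (y j)⁻¹ * y' j ∈ B) :
    dev β y n * β ((y n)⁻¹ * y' n) = β ((y 0)⁻¹ * y' 0) * dev β y' n := by
  induction n with
  | zero => simp [dev]
  | succ n ih =>
    have ih' := ih (fun j hj => h1 j (by omega)) (fun j hj => h2 j (by omega))
      (fun j hj => h3 j (by omega))
    have e1 : β ((y n)⁻¹ * y (n + 1)) * β ((y (n + 1))⁻¹ * y' (n + 1)) =
        β ((y n)⁻¹ * y' n) * β ((y' n)⁻¹ * y' (n + 1)) := by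
      rw [← hβ _ (h1 n (by omega)) _ (h3 (n + 1) le_rfl), ← hβ _ (h3 n (by omega)) _ (h2 n (by omega))]
      congr 1
      group
    show dev β y n * β ((y n)⁻¹ * y (n + 1)) * β ((y (n + 1))⁻¹ * y' (n + 1)) =
      β ((y 0)⁻¹ * y' 0) * (dev β y' n * β ((y' n)⁻¹ * y' (n + 1)))
    rw [mul_assoc, e1, ← mul_assoc, ih', mul_assoc]

theorem dev_loop {Q : Type} [Group Q] (β : H → Q) (B : Set H)
    (hβ : ∀ a ∈ B, ∀ b ∈ B, β (a * b) = β a * β b) (y y' : ℕ → H) (n : ℕ)
    (h1 : ∀ j < n, (y j)⁻¹ * y (j + 1) ∈ B) (h2 : ∀ j < n, (y' j)⁻¹ * y' (j + 1) ∈ B)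
    (h3 : ∀ j ≤ n, (y j)⁻¹ * y' j ∈ B) (hy : y n = y 0) (hy' : y' n = y' 0) :
    dev β y n = 1 ↔ dev β y' n = 1 := by
  have h := dev_homotopy β B hβ y y' n h1 h2 h3
  rw [hy, hy'] at h
  constructor
  · intro h0
    rw [h0, one_mul] at h
    exact (mul_eq_left.1 h.symm)
  · intro h0
    rw [h0, mul_one] at h
    exact (mul_eq_right.1 h)

theorem dev_const {Q : Type} [Group Q] (β : H → Q) (h1 : β 1 = 1) (x : H) (n : ℕ) :
    dev β (fun _ => x) n = 1 := by
  induction n with
  | zero => rfl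
  | succ n ih =>
    show dev β (fun _ => x) n * β (x⁻¹ * x) = 1
    rw [ih, inv_mul_cancel, h1, one_mul]

theorem dev_list {Q : Type} [Group Q] (β : H → Q) (l : List H) (n : ℕ) (hn : n ≤ l.length) :
    dev β (fun j => (l.take j).prod) n = ((l.take n).map β).prod := by
  induction n with
  | zero => simp [dev]
  | succ n ih =>
    have hn' : n < l.length := hn
    show dev β (fun j => (l.take j).prod) n * β (((l.take n).prod)⁻¹ * (l.take (n + 1)).prod) = _
    rw [ih (by omega), List.take_succ_eq_append_getElem hn', List.prod_append, List.map_append,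
      List.prod_append]
    simp

variable {V W : Type} [NormedAddCommGroup V] [NormedSpace ℝ V] [NormedAddCommGroup W]
  [NormedSpace ℝ W] {D : Dat V W}

theorem dd_dil_dil {s t : ℝ} (hs : 0 ≤ s) (hst : s ≤ t) (q : Nil D) :
    dd (dil s q) (dil t q) ≤ √(t ^ 2 - s ^ 2) * q.nm := by
  have h0 : 0 ≤ t ^ 2 - s ^ 2 := by nlinarith
  have h1 := Real.sqrt_nonneg (t ^ 2 - s ^ 2)
  have h2 := Real.sq_sqrt h0
  have hq := q.nm_nonneg
  unfold dd
  apply nm_le (by positivity)
  · have e : ((dil s q)⁻¹ * dil t q).v = (t - s) • q.v := by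
      rw [mul_v, inv_v, dil_v, dil_v, sub_smul]; abel
    rw [e, norm_smul, Real.norm_of_nonneg (by linarith)]
    have h3 : t - s ≤ √(t ^ 2 - s ^ 2) := by
      apply Real.le_sqrt_of_sq_le
      nlinarith
    exact mul_le_mul h3 q.v_le (norm_nonneg _) h1
  · have e : ((dil s q)⁻¹ * dil t q).z = (t ^ 2 - s ^ 2) • q.z := by
      rw [mul_z, inv_z, inv_v, dil_z, dil_z, dil_v, dil_v, sub_smul]
      simp only [map_neg, map_smul, LinearMap.neg_apply, LinearMap.smul_apply, D.alt, smul_zero,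
        neg_zero]
      abel
    rw [e, norm_smul, Real.norm_of_nonneg h0, mul_pow, h2]
    exact mul_le_mul_of_nonneg_left q.z_le h0

/-- the filling argument -/
theorem filling {Q : Type} [Group Q] (β : H → Q) (hβ1 : β 1 = 1) {S : Set H} (c : ℕ)
    (hβ : ∀ a ∈ Wd S c, ∀ b ∈ Wd S c, β (a * b) = β a * β b) {φ : Nil D → H} {ψ : H → Nil D}
    {K C : ℝ} (hK : 0 ≤ K) (hC : 0 ≤ C)
    (h1 : ∀ p q (n : ℕ), K * dd p q + C ≤ n → (φ p)⁻¹ * φ q ∈ Wd S n)
    (h2 : ∀ g h (n : ℕ), g⁻¹ * h ∈ Wd S n → dd (ψ g) (ψ h) ≤ K * n + C)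
    (h3 : ∀ (h : H) (n : ℕ), C ≤ n → h⁻¹ * φ (ψ h) ∈ Wd S n)
    (hc : K * (K + C + 1) + C + 1 ≤ c) (l : List H) (hl : ∀ x ∈ l, x ∈ Wd S 1)
    (hl1 : l.prod = 1) : (l.map β).prod = 1 := by
  classical
  set N := l.length with hN
  set h : ℕ → H := fun j => (l.take j).prod with hh
  have hc1 : (1 : ℝ) ≤ c := by
    have : 0 ≤ K * (K + C + 1) := by positivity
    linarith
  have hc1' : 1 ≤ c := by exact_mod_cast hc1
  have hstep : ∀ j, j < N → (h j)⁻¹ * h (j + 1) ∈ Wd S 1 := by
    intro j hj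
    have e : (h j)⁻¹ * h (j + 1) = l[j] := by
      simp only [hh]
      rw [List.take_succ_eq_append_getElem hj, List.prod_append]
      simp
    rw [e]
    exact hl _ (List.getElem_mem hj)
  have hclosed : h N = h 0 := by
    simp only [hh, hN, List.take_length, hl1, List.take_zero, List.prod_nil]
  have e0 : dev β h N = (l.map β).prod := by
    rw [hh, dev_list β l N le_rfl, hN, List.take_length]
  rw [← e0]
  -- the number of rows
  obtain ⟨m, hm⟩ := exists_nat_gt (∑ j ∈ Finset.range (N + 1), (ψ (h j)).nm ^ 2)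
  have hm0 : (0 : ℝ) < m := lt_of_le_of_lt (Finset.sum_nonneg fun j _ => sq_nonneg _) hm
  have hmj : ∀ j ≤ N, (ψ (h j)).nm ^ 2 ≤ m := by
    intro j hj
    refine le_trans ?_ hm.le
    exact Finset.single_le_sum (f := fun j => (ψ (h j)).nm ^ 2) (fun j _ => sq_nonneg _)
      (Finset.mem_range.2 (by omega))
  set s : ℕ → ℝ := fun k => √(k / m) with hs
  have hs0 : ∀ k, 0 ≤ s k := fun k => Real.sqrt_nonneg _
  have hsle : ∀ k ≤ m, s k ≤ 1 := by
    intro k hk
    simp only [hs]
    apply Real.sqrt_le_one.2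
    rw [div_le_one hm0]
    exact_mod_cast hk
  have hssq : ∀ k : ℕ, s k ^ 2 = k / m := fun k => Real.sq_sqrt (by positivity)
  set y : ℕ → ℕ → H := fun k j => φ (dil (s k) (ψ (h j))) with hy
  have hrow : ∀ k ≤ m, ∀ j < N, (y k j)⁻¹ * y k (j + 1) ∈ Wd S c := by
    intro k hk j hj
    apply h1
    rw [dd_dil (hs0 k)]
    have h4 := h2 _ _ 1 (hstep j hj)
    have h5 : s k * dd (ψ (h j)) (ψ (h (j + 1))) ≤ K + C := by
      have h6 := hsle k hk
      have h7 := dd_nonneg (ψ (h j)) (ψ (h (j + 1)))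
      have h8 : s k * dd (ψ (h j)) (ψ (h (j + 1))) ≤ 1 * dd (ψ (h j)) (ψ (h (j + 1))) :=
        mul_le_mul_of_nonneg_right h6 h7
      push_cast at h4
      linarith
    have h9 := mul_le_mul_of_nonneg_left h5 hK
    nlinarith
  have hcol : ∀ k < m, ∀ j ≤ N, (y k j)⁻¹ * y (k + 1) j ∈ Wd S c := by
    intro k hk j hj
    apply h1
    have h4 := dd_dil_dil (hs0 k) (by
      simp only [hs]
      apply Real.sqrt_le_sqrt
      gcongr
      exact Nat.le_succ k : s k ≤ s (k + 1)) (ψ (h j))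
    have h5 : s (k + 1) ^ 2 - s k ^ 2 = 1 / m := by
      rw [hssq, hssq]
      push_cast
      ring
    have h6 : √(1 / (m : ℝ)) * (ψ (h j)).nm ≤ 1 := by
      have h7 := hmj j hj
      have h8 : √(1 / (m : ℝ)) * (ψ (h j)).nm = √(1 / m * (ψ (h j)).nm ^ 2) := by
        rw [Real.sqrt_mul (by positivity), Real.sqrt_sq (nm_nonneg _)]
      rw [h8]
      apply Real.sqrt_le_one.2
      rw [one_div, inv_mul_le_iff₀ hm0, mul_one]
      exact h7
    rw [h5] at h4
    have h9 := mul_le_mul_of_nonneg_left (h4.trans h6) hK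
    have h10 : 0 ≤ K * (K + C) := by positivity
    nlinarith
  have hrows : ∀ k ≤ m, dev β (y k) N = 1 := by
    intro k
    induction k with
    | zero =>
      intro _
      have e : y 0 = fun _ => φ 1 := by
        funext j
        simp [hy, hs]
      rw [e, dev_const β hβ1]
    | succ k ih =>
      intro hk
      have h4 := ih (by omega)
      refine (dev_loop β _ hβ (y k) (y (k + 1)) N (hrow k (by omega)) (hrow (k + 1) hk)
        (hcol k hk) ?_ ?_).1 h4
      · simp only [hy, hclosed]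
      · simp only [hy, hclosed]
  have hfin := hrows m le_rfl
  refine (dev_loop β _ hβ h (y m) N (fun j hj => Wd.mono hc1' (hstep j hj)) (hrow m le_rfl) ?_
    hclosed ?_).2 hfin
  · intro j _
    have hsm : s m = 1 := by
      simp only [hs]
      rw [div_self hm0.ne', Real.sqrt_one]
    simp only [hy, hsm, one_dil]
    apply h3
    have : 0 ≤ K * (K + C + 1) := by positivity
    linarith
  · simp only [hy, hclosed]

/-- A finitely generated group quasi-isometric to a two-step group is given by finitely many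
relators. -/
theorem presented {S : Set H} (hS : Subgroup.closure S = ⊤) (hf : S.Finite) {φ : Nil D → H}
    {ψ : H → Nil D} {K C : ℝ} (hK : 0 ≤ K) (hC : 0 ≤ C)
    (h1 : ∀ p q, ((cay S).dist (φ p) (φ q) : ℝ) ≤ K * dd p q + C)
    (h2 : ∀ g h, dd (ψ g) (ψ h) ≤ K * (cay S).dist g h + C)
    (h3 : ∀ h : H, ((cay S).dist h (φ (ψ h)) : ℝ) ≤ C) :
    ∃ (n : ℕ) (R : Finset (FreeGroup (Fin n))),
      Nonempty (H ≃* FreeGroup (Fin n) ⧸ Subgroup.normalClosure (R : Set (FreeGroup (Fin n)))) := by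
  classical
  obtain ⟨c, hc⟩ := exists_nat_ge (K * (K + C + 1) + C + 1)
  have hc0 : 1 ≤ c := by
    have h5 : 0 ≤ K * (K + C + 1) := by positivity
    have : (1 : ℝ) ≤ c := by linarith
    exact_mod_cast this
  -- enumerate the generators
  have := hf.fintype
  let n := Fintype.card S
  let en : Fin n ≃ S := (Fintype.equivFin S).symm
  let σ : Fin n → H := fun i => (en i : H)
  let π : FreeGroup (Fin n) →* H := FreeGroup.lift σ
  have hσ : ∀ i, σ i ∈ S := fun i => (en i).2
  have hπσ : ∀ i, π (FreeGroup.of i) = σ i := fun i => FreeGroup.lift_apply_of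
  have hsurj : Function.Surjective π := by
    rw [← MonoidHom.range_eq_top, eq_top_iff, ← hS, Subgroup.closure_le]
    intro x hx
    refine ⟨FreeGroup.of (en.symm ⟨x, hx⟩), ?_⟩
    rw [hπσ]
    simp [σ]
  choose w hw using hsurj
  -- the relators
  let R₀ : Set (FreeGroup (Fin n)) :=
    (Set.image2 (fun a b => w a * w b * (w (a * b))⁻¹) (Wd S c) (Wd S c)) ∪
      (Set.range fun i => w (σ i) * (FreeGroup.of i)⁻¹) ∪ {w 1}
  have hR₀ : R₀.Finite := by
    refine ((Set.Finite.image2 _ (Wd.finite hf c) (Wd.finite hf c)).union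
      (Set.finite_range _)).union (Set.finite_singleton _)
  have hR₀π : R₀ ⊆ π.ker := by
    rintro x ((⟨a, ha, b, hb, rfl⟩ | ⟨i, rfl⟩) | hx)
    · simp [MonoidHom.mem_ker, hw]
    · simp [MonoidHom.mem_ker, hw, hπσ]
    · rw [Set.mem_singleton_iff] at hx
      simp [MonoidHom.mem_ker, hx, hw]
  set Nn := Subgroup.normalClosure R₀ with hNn
  have hNπ : Nn ≤ π.ker := Subgroup.normalClosure_le_normal hR₀π
  let q : FreeGroup (Fin n) →* FreeGroup (Fin n) ⧸ Nn := QuotientGroup.mk' Nn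
  have hq : ∀ x, q x = 1 ↔ x ∈ Nn := fun x => QuotientGroup.eq_one_iff x
  let β : H → FreeGroup (Fin n) ⧸ Nn := fun h => q (w h)
  have hβ1 : β 1 = 1 := (hq _).2 (Subgroup.subset_normalClosure (Or.inr rfl))
  have hβ : ∀ a ∈ Wd S c, ∀ b ∈ Wd S c, β (a * b) = β a * β b := by
    intro a ha b hb
    have h4 : q (w a * w b * (w (a * b))⁻¹) = 1 :=
      (hq _).2 (Subgroup.subset_normalClosure (Or.inl (Or.inl ⟨a, ha, b, hb, rfl⟩)))
    rw [map_mul, map_mul, map_inv, mul_inv_eq_one] at h4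
    exact h4.symm
  have hβσ : ∀ i, β (σ i) = q (FreeGroup.of i) := by
    intro i
    have h4 : q (w (σ i) * (FreeGroup.of i)⁻¹) = 1 :=
      (hq _).2 (Subgroup.subset_normalClosure (Or.inl (Or.inr ⟨i, rfl⟩)))
    rw [map_mul, map_inv, mul_inv_eq_one] at h4
    exact h4
  have hfill := filling (D := D) β hβ1 c hβ (φ := φ) (ψ := ψ) hK hC
    (fun p q n hn => (mem_iff hS _ _ _).2 (by
      have := (h1 p q).trans hn
      exact_mod_cast this))
    (fun g h n hn => (h2 g h).trans (by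
      have := (mem_iff hS _ _ _).1 hn
      have h5 : ((cay S).dist g h : ℝ) ≤ n := by exact_mod_cast this
      gcongr))
    (fun h n hn => (mem_iff hS _ _ _).2 (by
      have := (h3 h).trans hn
      exact_mod_cast this)) hc
  have hP : ∀ x : FreeGroup (Fin n), ∃ l : List H, (∀ a ∈ l, a ∈ Wd S 1) ∧
      (l.map β).prod = q x ∧ l.prod = π x := by
    intro x
    induction x using FreeGroup.induction_on with
    | C1 => exact ⟨[], by simp, by simp, by simp⟩
    | of i =>
      refine ⟨[σ i], ?_, ?_, ?_⟩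
      · intro a ha
        rw [List.mem_singleton] at ha
        rw [ha]
        exact Wd.letter (Or.inl (hσ i))
      · simp [hβσ]
      · simp [hπσ]
    | inv_of i _ =>
      refine ⟨[(σ i)⁻¹], ?_, ?_, ?_⟩
      · intro a ha
        rw [List.mem_singleton] at ha
        rw [ha]
        exact Wd.letter (Or.inr (by rw [inv_inv]; exact hσ i))
      · have h4 := hβ (σ i) (Wd.mono hc0 (Wd.letter (Or.inl (hσ i)))) (σ i)⁻¹
          (Wd.mono hc0 (Wd.letter (Or.inr (by rw [inv_inv]; exact hσ i))))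
        rw [mul_inv_cancel, hβ1, hβσ] at h4
        simp only [List.map_cons, List.map_nil, List.prod_cons, List.prod_nil, mul_one, map_inv]
        exact (inv_eq_of_mul_eq_one_right h4.symm).symm
      · simp [hπσ]
    | mul x y hx hy =>
      obtain ⟨l, a1, a2, a3⟩ := hx
      obtain ⟨l', b1, b2, b3⟩ := hy
      refine ⟨l ++ l', ?_, ?_, ?_⟩
      · intro a ha
        rcases List.mem_append.1 ha with h | h
        · exact a1 a h
        · exact b1 a h
      · rw [List.map_append, List.prod_append, a2, b2, map_mul]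
      · rw [List.prod_append, a3, b3, map_mul]
  have hker : π.ker ≤ Nn := by
    intro x hx
    obtain ⟨l, a1, a2, a3⟩ := hP x
    rw [MonoidHom.mem_ker] at hx
    rw [← hq, ← a2]
    exact hfill l a1 (a3.trans hx)
  have hNeq : Nn = π.ker := le_antisymm hNπ hker
  refine ⟨n, hR₀.toFinset, ?_⟩
  have e1 : Subgroup.normalClosure (hR₀.toFinset : Set (FreeGroup (Fin n))) = π.ker := by
    rw [Set.Finite.coe_toFinset]
    exact hNeq
  have hsurj' : Function.Surjective π := fun h => ⟨w h, hw h⟩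
  exact ⟨(QuotientGroup.quotientKerEquivOfSurjective π hsurj').symm.trans
    (QuotientGroup.quotientMulEquivOfEq e1.symm)⟩

end Pool.Agent.K9h81.CT
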