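import Pool.Agent.K9h81.CT.Alg
import Pool.Agent.K9h81.CT.Blow
import Pool.Agent.K9h81.CT.FP

/-!
# The graphs of the model groups and finitely generated groups

Only countably many of the model groups can be quasi-isometric to finitely generated groups.
-/

set_option autoImplicit false

namespace Pool.Agent.K9h81.CT

open Nil

/-- quasi-isometric embeddings for arbitrary distance functions -/
def QEm {X Y : Type} (dX : X → X → ℝ) (dY : Y → Y → ℝ) (f : X → Y) : Prop :=
  ∃ K C : ℝ, 0 ≤ K ∧ 0 ≤ C ∧ ∀ a b, dY (f a) (f b) ≤ K * dX a b + C ∧ dX a b ≤ K * dY (f a) (f b) + C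

theorem QEm.comp {X Y Z : Type} {dX : X → X → ℝ} {dY : Y → Y → ℝ} {dZ : Z → Z → ℝ} {f : X → Y}
    {g : Y → Z} (hg : QEm dY dZ g) (hf : QEm dX dY f) : QEm dX dZ (fun x => g (f x)) := by
  obtain ⟨K, C, hK, hC, h⟩ := hf
  obtain ⟨K', C', hK', hC', h'⟩ := hg
  refine ⟨K * K', K' * C + C' + (K * C' + C), by positivity, by positivity, fun a b => ?_⟩
  have h1 := (h a b).1
  have h2 := (h a b).2
  have h3 := (h' (f a) (f b)).1
  have h4 := (h' (f a) (f b)).2
  have h5 := mul_le_mul_of_nonneg_left h1 hK'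
  have h6 := mul_le_mul_of_nonneg_left h4 hK
  have h7 := mul_nonneg hK hC'
  have h8 := mul_nonneg hK' hC
  constructor
  · nlinarith
  · nlinarith

/-- the graph with parameter `l` -/
noncomputable def XX (l : Set.Ioo (0 : ℝ) 1) : SimpleGraph T10 := gr (io l)

theorem XX_conn (l : Set.Ioo (0 : ℝ) 1) : (XX l).Connected :=
  gr_connected (io l) (dat_genB l) (io_net l)

theorem dat_gen (l : Set.Ioo (0 : ℝ) 1) : Gen (dat l) := by
  intro c
  obtain ⟨a, b, a', b', h, -⟩ := dat_genB l c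
  exact ⟨a, b, a', b', h⟩

/-- the nearest vertex -/
noncomputable def near (l : Set.Ioo (0 : ℝ) 1) (p : Nil (dat l)) : T10 := (io_net l p).choose

theorem near_le (l : Set.Ioo (0 : ℝ) 1) (p : Nil (dat l)) : dd (io l (near l p)) p ≤ 1 :=
  (io_net l p).choose_spec

theorem XX_le (l : Set.Ioo (0 : ℝ) 1) (s t : T10) :
    ((XX l).dist s t : ℝ) ≤ 17 * dd (io l s) (io l t) + 10 :=
  (gr_dist (io l) (dat_genB l) (io_net l) s t).2

theorem le_XX (l : Set.Ioo (0 : ℝ) 1) (s t : T10) :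
    dd (io l s) (io l t) ≤ 3 * (XX l).dist s t := le_gr (io l) (XX_conn l) s t

/-- the distance of the graph -/
noncomputable def dX (l : Set.Ioo (0 : ℝ) 1) (s t : T10) : ℝ := (XX l).dist s t

theorem near_qe (l : Set.Ioo (0 : ℝ) 1) : QEm (dd (D := dat l)) (dX l) (near l) := by
  refine ⟨17, 44, by norm_num, by norm_num, fun p q => ?_⟩
  have h1 := XX_le l (near l p) (near l q)
  have h2 := le_XX l (near l p) (near l q)
  have h3 := near_le l p
  have h4 := near_le l q
  have h5 := dd_tri (io l (near l p)) p (io l (near l q))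
  have h6 := dd_tri p q (io l (near l q))
  have h7 := dd_tri p (io l (near l p)) q
  have h8 := dd_tri (io l (near l p)) (io l (near l q)) q
  rw [dd_comm q] at h6
  rw [dd_comm p (io l (near l p))] at h7
  have h9 : (0 : ℝ) ≤ (XX l).dist (near l p) (near l q) := Nat.cast_nonneg _
  unfold dX
  constructor <;> linarith

theorem io_qe (l : Set.Ioo (0 : ℝ) 1) : QEm (dX l) (dd (D := dat l)) (io l) := by
  refine ⟨17, 10, by norm_num, by norm_num, fun s t => ?_⟩
  have h1 := XX_le l s t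
  have h2 := le_XX l s t
  have h3 : (0 : ℝ) ≤ (XX l).dist s t := Nat.cast_nonneg _
  have h4 := dd_nonneg (io l s) (io l t)
  unfold dX
  constructor <;> linarith

/-- the distance of the Cayley graph -/
noncomputable def dC {H : Type} [Group H] (S : Set H) (g h : H) : ℝ := (cay S).dist g h

/-- the data of a quasi-isometry from the graph to a finitely generated group -/
structure QG (l : Set.Ioo (0 : ℝ) 1) where
  H : Type
  grp : Group H
  S : Set H
  fin : S.Finite
  gen : Subgroup.closure S = ⊤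
  φ : T10 → H
  χ : H → T10
  K : ℝ
  C : ℝ
  hK : 0 ≤ K
  hC : 0 ≤ C
  h1 : ∀ a b, dC S (φ a) (φ b) ≤ K * dX l a b + C
  h2 : ∀ a b, dX l a b ≤ K * dC S (φ a) (φ b) + C
  h3 : ∀ h, dC S (φ (χ h)) h ≤ C

attribute [instance] QG.grp

variable {l l' : Set.Ioo (0 : ℝ) 1}

theorem dC_tri {H : Type} [Group H] {S : Set H} (hS : Subgroup.closure S = ⊤) (a b c : H) :
    dC S a c ≤ dC S a b + dC S b c := by
  unfold dC
  exact_mod_cast (cay_connected hS).dist_triangle

theorem dC_comm {H : Type} [Group H] (S : Set H) (a b : H) : dC S a b = dC S b a := by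
  unfold dC
  rw [SimpleGraph.dist_comm]

theorem QG.phi_qe (G : QG l) : QEm (dX l) (dC G.S) G.φ :=
  ⟨G.K, G.C, G.hK, G.hC, fun a b => ⟨G.h1 a b, G.h2 a b⟩⟩

theorem QG.chi_qe (G : QG l) : QEm (dC G.S) (dX l) G.χ := by
  have hK := G.hK
  have hC := G.hC
  have hKC := mul_nonneg hK hC
  refine ⟨G.K, G.K * (2 * G.C) + 3 * G.C, hK, by positivity, fun a b => ?_⟩
  have h1 := G.h1 (G.χ a) (G.χ b)
  have h2 := G.h2 (G.χ a) (G.χ b)
  have h3 := G.h3 a
  have h4 := G.h3 b
  have h5 := dC_tri G.gen (G.φ (G.χ a)) a (G.φ (G.χ b))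
  have h6 := dC_tri G.gen a b (G.φ (G.χ b))
  have h7 := dC_tri G.gen a (G.φ (G.χ a)) b
  have h8 := dC_tri G.gen (G.φ (G.χ a)) (G.φ (G.χ b)) b
  rw [dC_comm G.S b] at h6
  rw [dC_comm G.S a (G.φ (G.χ a))] at h7
  have h9 : dC G.S (G.φ (G.χ a)) (G.φ (G.χ b)) ≤ dC G.S a b + 2 * G.C := by linarith
  have h10 := mul_le_mul_of_nonneg_left h9 hK
  constructor <;> linarith

/-- the group is given by finitely many relators -/
theorem QG.code (G : QG l) : ∃ c : (n : ℕ) × Finset (FreeGroup (Fin n)),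
    Nonempty (G.H ≃* FreeGroup (Fin c.1) ⧸ Subgroup.normalClosure (c.2 : Set (FreeGroup (Fin c.1)))) := by
  obtain ⟨K₁, C₁, hK₁, hC₁, e1⟩ := G.phi_qe.comp (near_qe l)
  obtain ⟨K₂, C₂, hK₂, hC₂, e2⟩ := (io_qe l).comp G.chi_qe
  have hK := G.hK
  have hC := G.hC
  suffices hs : ∃ (n : ℕ) (R : Finset (FreeGroup (Fin n))),
      Nonempty (G.H ≃* FreeGroup (Fin n) ⧸ Subgroup.normalClosure (R : Set (FreeGroup (Fin n)))) by
    obtain ⟨n, R, h⟩ := hs
    exact ⟨⟨n, R⟩, h⟩
  refine presented (D := dat l) G.gen G.fin (φ := fun p => G.φ (near l p))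
    (ψ := fun h => io l (G.χ h)) (K := K₁ + K₂) (C := C₁ + C₂ + (G.K * 27 + 2 * G.C))
    (by positivity) (by positivity) ?_ ?_ ?_
  · intro p q
    have h1 := (e1 p q).1
    have h2 := mul_nonneg hK₂ (dd_nonneg p q)
    have h3 : 0 ≤ G.K * 27 + 2 * G.C := by positivity
    have h4 : ((cay G.S).dist (G.φ (near l p)) (G.φ (near l q)) : ℝ) ≤ K₁ * dd p q + C₁ := h1
    linarith
  · intro g h
    have h1 := (e2 g h).1
    have h2 : 0 ≤ K₁ * (cay G.S).dist g h := by positivity
    have h3 : 0 ≤ G.K * 27 + 2 * G.C := by positivity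
    have h4 : dd (io l (G.χ g)) (io l (G.χ h)) ≤ K₂ * (cay G.S).dist g h + C₂ := h1
    linarith
  · intro h
    have h1 := near_le l (io l (G.χ h))
    have h2 := XX_le l (near l (io l (G.χ h))) (G.χ h)
    have h3 : dX l (near l (io l (G.χ h))) (G.χ h) ≤ 27 := by
      unfold dX
      linarith
    have h4 := G.h1 (near l (io l (G.χ h))) (G.χ h)
    have h5 := G.h3 h
    have h6 := dC_tri G.gen (G.φ (near l (io l (G.χ h)))) (G.φ (G.χ h)) h
    have h7 := mul_le_mul_of_nonneg_left h3 hK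
    have h8 : dC G.S h (G.φ (near l (io l (G.χ h)))) ≤ G.K * 27 + 2 * G.C := by
      rw [dC_comm]
      linarith
    have h9 : ((cay G.S).dist h (G.φ (near l (io l (G.χ h)))) : ℝ) ≤ G.K * 27 + 2 * G.C := h8
    linarith

theorem iso_qe {H H' : Type} [Group H] [Group H'] {S : Set H} {S' : Set H'}
    (hS : Subgroup.closure S = ⊤) (hS' : Subgroup.closure S' = ⊤) (hf : S.Finite)
    (hf' : S'.Finite) (e : H ≃* H') : QEm (dC S) (dC S') e := by
  obtain ⟨k, hk⟩ := iso_dist hS hS' hf e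
  obtain ⟨k', hk'⟩ := iso_dist hS' hS hf' e.symm
  refine ⟨k + k', 0, by positivity, le_rfl, fun a b => ?_⟩
  have h1 : dC S' (e a) (e b) ≤ k * dC S a b := by
    unfold dC
    exact_mod_cast hk a b
  have h2 : dC S a b ≤ k' * dC S' (e a) (e b) := by
    unfold dC
    have := hk' (e a) (e b)
    rw [e.symm_apply_apply, e.symm_apply_apply] at this
    exact_mod_cast this
  have h3 : 0 ≤ dC S a b := Nat.cast_nonneg _
  have h4 : 0 ≤ dC S' (e a) (e b) := Nat.cast_nonneg _
  have h5 : (0 : ℝ) ≤ k := Nat.cast_nonneg _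
  have h6 : (0 : ℝ) ≤ k' := Nat.cast_nonneg _
  constructor <;> nlinarith

/-- Two parameters with the same group are related. -/
theorem related (G : QG l) (G' : QG l') (e : G.H ≃* G'.H) : (l' : ℝ) ∈ Set.range (hh l) := by
  have h1 := (io_qe l').comp (G'.chi_qe.comp ((iso_qe G.gen G'.gen G.fin G'.fin e).comp
    (G.phi_qe.comp (near_qe l))))
  obtain ⟨K, C, hK, hC, h⟩ := h1
  obtain ⟨A, F, hF, hA⟩ := rigid (dat_gen l) hK hC h
  exact cross hF hA

/-- Some graph is quasi-isometric to no finitely generated group. -/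
theorem exists_bad : ∃ l : Set.Ioo (0 : ℝ) 1, IsEmpty (QG l) := by
  by_contra hcon
  push Not at hcon
  have G : ∀ l : Set.Ioo (0 : ℝ) 1, QG l := fun l => (hcon l).some
  have hc := fun l => (G l).code
  choose c hc using hc
  have hfib : ∀ x, (c ⁻¹' {x}).Finite := by
    intro x
    by_contra hinf
    have hinf' : (c ⁻¹' {x}).Infinite := hinf
    obtain ⟨l, hl⟩ := hinf'.nonempty
    have hl' : c l = x := hl
    have hsub : (c ⁻¹' {x}) ⊆ (fun l' : Set.Ioo (0 : ℝ) 1 => (l' : ℝ)) ⁻¹' Set.range (hh l) := by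
      intro l' hl''
      have h2 : c l' = x := hl''
      obtain ⟨e⟩ := hc l
      obtain ⟨e'⟩ := hc l'
      rw [hl'] at e
      rw [h2] at e'
      exact related (G l) (G l') (e.trans e'.symm)
    have hfin : ((fun l' : Set.Ioo (0 : ℝ) 1 => (l' : ℝ)) ⁻¹' Set.range (hh l)).Finite :=
      (Set.finite_range _).preimage Subtype.val_injective.injOn
    exact hinf (hfin.subset hsub)
  have hcount : (Set.univ : Set (Set.Ioo (0 : ℝ) 1)).Countable := by
    have : (Set.univ : Set (Set.Ioo (0 : ℝ) 1)) = ⋃ x, c ⁻¹' {x} := by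
      ext l
      simp
    rw [this]
    exact Set.countable_iUnion fun x => (hfib x).countable
  have h1 : (Set.Ioo (0 : ℝ) 1).Countable := by
    rw [← Set.countable_coe_iff]
    exact Set.countable_univ_iff.1 hcount
  have h2 := Cardinal.mk_Ioo_real (zero_lt_one' ℝ)
  have h3 : Cardinal.mk (Set.Ioo (0 : ℝ) 1) ≤ Cardinal.aleph0 := Cardinal.mk_le_aleph0_iff.2
    (Set.countable_coe_iff.2 h1)
  rw [h2] at h3
  exact absurd h3 (not_le.2 Cardinal.aleph0_lt_continuum)

end Pool.Agent.K9h81.CT
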