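import Pool.Agent.K9h81.CT.Nil
import Pool.Agent.Helper183.Gar.Mean

/-!
# Invariant means and the energy argument

For finitely many coarsely Lipschitz functions on a two-step group there are arbitrarily large
scales and base points at which the functions are nearly additive.
-/

set_option autoImplicit false

namespace Pool.Agent.K9h81.CT

open Nil Gardner

variable {V W : Type} [NormedAddCommGroup V] [NormedSpace ℝ V] [NormedAddCommGroup W]
  [NormedSpace ℝ W]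

theorem bdd_mono {Γ Δ : Type} {f : Γ → ℝ} (hf : Bdd f) (g : Δ → Γ) : Bdd (fun x => f (g x)) := by
  obtain ⟨C, hC⟩ := hf
  exact ⟨C, fun x => hC _⟩

/-- `M` is a right invariant mean -/
structure RM (D : Dat V W) (M : (Nil D → ℝ) → ℝ) : Prop where
  add : ∀ f g, Bdd f → Bdd g → M (f + g) = M f + M g
  pos : ∀ f, Bdd f → (∀ x, 0 ≤ f x) → 0 ≤ M f
  one : M (fun _ => 1) = 1
  inv : ∀ f (h : Nil D), Bdd f → M (fun p => f (p * h)) = M f

theorem exists_rm (D : Dat V W) : ∃ M : (Nil D → ℝ) → ℝ, RM D M := by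
  obtain ⟨mV, v1, v2, v3, v4, v5⟩ := exists_mean V
  obtain ⟨mW, w1, w2, w3, w4, w5⟩ := exists_mean W
  have hb : ∀ f : Nil D → ℝ, Bdd f → Bdd (fun v => mW (fun z => f ⟨v, z⟩)) := by
    rintro f ⟨C, hC⟩
    exact ⟨C, fun v => w4 _ C fun z => hC _⟩
  have hb' : ∀ (f : Nil D → ℝ) (v : V), Bdd f → Bdd (fun z => f ⟨v, z⟩) := by
    rintro f v ⟨C, hC⟩
    exact ⟨C, fun z => hC _⟩
  refine ⟨fun f => mV fun v => mW fun z => f ⟨v, z⟩, ?_, ?_, ?_, ?_⟩
  · intro f g hf hg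
    have h1 : (fun v => mW fun z => (f + g) ⟨v, z⟩) =
        (fun v => mW fun z => f ⟨v, z⟩) + (fun v => mW fun z => g ⟨v, z⟩) := by
      funext v
      exact w1 (fun z => f ⟨v, z⟩) (fun z => g ⟨v, z⟩) (hb' f v hf) (hb' g v hg)
    rw [h1]
    exact v1 _ _ (hb f hf) (hb g hg)
  · intro f hf h0
    exact v2 _ (hb f hf) fun v => w2 _ (hb' f v hf) fun z => h0 _
  · simp only [w3, v3]
  · intro f h hf
    have h1 : (fun v => mW fun z => f (⟨v, z⟩ * h)) = fun v => mW fun z => f ⟨h.v + v, z⟩ := by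
      funext v
      have e1 : (fun z => f ((⟨v, z⟩ : Nil D) * h)) =
          fun z => (fun z => f ⟨h.v + v, z⟩) ((h.z + D.om v h.v) + z) := by
        funext z
        congr 1
        ext1
        · simp [add_comm]
        · simp only [mul_z]; abel
      rw [e1]
      exact w5 _ _ (hb' f _ hf)
    rw [h1]
    exact v5 (fun v => mW fun z => f ⟨v, z⟩) h.v (hb f hf)

variable {D : Dat V W} {M : (Nil D → ℝ) → ℝ}

theorem RM.sum (hM : RM D M) {ι : Type} (s : Finset ι) (F : ι → Nil D → ℝ)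
    (hF : ∀ i ∈ s, Bdd (F i)) :
    Bdd (fun p => ∑ i ∈ s, F i p) ∧ M (fun p => ∑ i ∈ s, F i p) = ∑ i ∈ s, M (F i) := by
  classical
  induction s using Finset.induction_on with
  | empty =>
    refine ⟨⟨0, fun x => by simp⟩, ?_⟩
    have h0 : Bdd (fun _ : Nil D => (0 : ℝ)) := ⟨0, fun x => by simp⟩
    have := hM.add (fun _ => 0) (fun _ => 0) h0 h0
    have e : ((fun _ => 0) + (fun _ => 0) : Nil D → ℝ) = fun _ => 0 := by
      funext p; simp
    rw [e] at this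
    simp only [Finset.sum_empty]
    linarith
  | insert a s ha ih =>
    obtain ⟨h1, h2⟩ := ih fun i hi => hF i (Finset.mem_insert_of_mem hi)
    have e : (fun p => ∑ i ∈ insert a s, F i p) = F a + fun p => ∑ i ∈ s, F i p := by
      funext p
      rw [Finset.sum_insert ha]; rfl
    have ha' := hF a (Finset.mem_insert_self a s)
    rw [e, Finset.sum_insert ha, hM.add _ _ ha' h1, h2]
    exact ⟨ha'.add' h1, rfl⟩

theorem RM.mono_exists (hM : RM D M) (F : Nil D → ℝ) (hF : Bdd F) (k : ℕ) (hk : 0 < k)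
    (h : M F < 1 / k) : ∃ p, F p < 1 / k := by
  by_contra hcon
  push Not at hcon
  have h1 := hM.sum (Finset.range k) (fun _ => F) (fun _ _ => hF)
  simp only [Finset.sum_const, Finset.card_range, nsmul_eq_mul] at h1
  have hk' : (0 : ℝ) < k := by exact_mod_cast hk
  have hneg : Bdd (fun _ : Nil D => (1 : ℝ)) := ⟨1, fun x => by simp⟩
  have hdif : Bdd (fun p => (k : ℝ) * F p - 1) := by
    obtain ⟨C, hC⟩ := h1.1
    refine ⟨C + 1, fun p => ?_⟩
    have := hC p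
    calc |(k : ℝ) * F p - 1| ≤ |(k : ℝ) * F p| + |(1 : ℝ)| := abs_sub _ _
      _ ≤ C + 1 := by rw [abs_one]; linarith
  have h2 := hM.pos _ hdif (fun p => by
    have h3 := hcon p
    rw [div_le_iff₀ hk'] at h3
    linarith)
  have h3 := hM.add _ _ hdif hneg
  have e : ((fun p => (k : ℝ) * F p - 1) + (fun _ => 1) : Nil D → ℝ) = fun p => (k : ℝ) * F p := by
    funext p; simp
  rw [e, hM.one, h1.2] at h3
  rw [lt_div_iff₀ hk'] at h
  nlinarith

/-- coarsely Lipschitz real functions -/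
def CL (u : Nil D → ℝ) (K C : ℝ) : Prop := 0 ≤ K ∧ 0 ≤ C ∧ ∀ p q, |u p - u q| ≤ K * dd p q + C

/-- slopes at the scale `2 ^ n` -/
noncomputable def slope (u : Nil D → ℝ) (a : V) (n : ℕ) (p : Nil D) : ℝ :=
  (u (p * hz D ((2 : ℝ) ^ n • a)) - u p) / 2 ^ n

/-- half the difference of consecutive slopes -/
noncomputable def dif (u : Nil D → ℝ) (a : V) (n : ℕ) (p : Nil D) : ℝ :=
  (slope u a n (p * hz D ((2 : ℝ) ^ n • a)) - slope u a n p) / 2

theorem slope_succ (u : Nil D → ℝ) (a : V) (n : ℕ) (p : Nil D) :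
    slope u a (n + 1) p = slope u a n p + dif u a n p := by
  have h2 : (2 : ℝ) ^ n ≠ 0 := by positivity
  have e : p * hz D ((2 : ℝ) ^ (n + 1) • a) =
      p * hz D ((2 : ℝ) ^ n • a) * hz D ((2 : ℝ) ^ n • a) := by
    rw [mul_assoc, hz_smul_mul]
    congr 3
    ring
  unfold dif slope
  rw [e]
  field_simp
  ring

theorem slope_add (u : Nil D → ℝ) (a : V) (n m : ℕ) (p : Nil D) :
    slope u a (n + m) p = slope u a n p + ∑ i ∈ Finset.range m, dif u a (n + i) p := by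
  induction m with
  | zero => simp
  | succ m ih =>
    rw [← add_assoc, slope_succ, ih, Finset.sum_range_succ]
    ring

theorem slope_bd {u : Nil D → ℝ} {K C : ℝ} (hu : CL u K C) (a : V) (n : ℕ) (p : Nil D) :
    |slope u a n p| ≤ K * ‖a‖ + C := by
  obtain ⟨hK, hC, h⟩ := hu
  have h2 : (1 : ℝ) ≤ 2 ^ n := one_le_pow₀ (by norm_num)
  have h2' : (0 : ℝ) < 2 ^ n := by positivity
  unfold slope
  rw [abs_div, abs_of_pos h2', div_le_iff₀ h2']
  have h1 := h (p * hz D ((2 : ℝ) ^ n • a)) p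
  rw [dd_comm, dd_mul_right, nm_hz, norm_smul, Real.norm_of_nonneg h2'.le] at h1
  nlinarith

theorem dif_bd {u : Nil D → ℝ} {K C : ℝ} (hu : CL u K C) (a : V) (n : ℕ) (p : Nil D) :
    |dif u a n p| ≤ K * ‖a‖ + C := by
  unfold dif
  have h1 := slope_bd hu a n (p * hz D ((2 : ℝ) ^ n • a))
  have h2 := slope_bd hu a n p
  rw [abs_le] at *
  constructor <;> linarith

theorem sq_bdd {f : Nil D → ℝ} {B : ℝ} (h : ∀ p, |f p| ≤ B) : Bdd (fun p => f p ^ 2) :=
  ⟨B ^ 2, fun p => by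
    show |f p ^ 2| ≤ B ^ 2
    rw [abs_pow]
    exact pow_le_pow_left₀ (abs_nonneg _) (h p) 2⟩

theorem dif_small (hM : RM D M) {u : Nil D → ℝ} {K C : ℝ} (hu : CL u K C) (a : V) :
    Filter.Tendsto (fun n => M (fun p => dif u a n p ^ 2)) Filter.atTop (nhds 0) := by
  set E : ℕ → ℝ := fun n => M (fun p => slope u a n p ^ 2) with hE
  have bS : ∀ n, Bdd (fun p => slope u a n p ^ 2) := fun n => sq_bdd (slope_bd hu a n)
  have bD : ∀ n, Bdd (fun p => dif u a n p ^ 2) := fun n => sq_bdd (dif_bd hu a n)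
  have key : ∀ n, M (fun p => dif u a n p ^ 2) = E n - E (n + 1) := by
    intro n
    set f1 : Nil D → ℝ := fun p => slope u a (n + 1) p ^ 2
    set f2 : Nil D → ℝ := fun p => dif u a n p ^ 2
    set g1 : Nil D → ℝ := fun p => slope u a n p ^ 2
    set g2 : Nil D → ℝ := fun p => slope u a n (p * hz D ((2 : ℝ) ^ n • a)) ^ 2
    have bg2 : Bdd g2 := bdd_mono (bS n) _
    have e : (f1 + f1) + (f2 + f2) = g1 + g2 := by
      funext p
      show (slope u a (n + 1) p ^ 2 + slope u a (n + 1) p ^ 2) + (dif u a n p ^ 2 + dif u a n p ^ 2) =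
        slope u a n p ^ 2 + slope u a n (p * hz D ((2 : ℝ) ^ n • a)) ^ 2
      rw [slope_succ]
      unfold dif
      ring
    have e1 := congrArg M e
    rw [hM.add _ _ ((bS (n + 1)).add' (bS (n + 1))) ((bD n).add' (bD n)),
      hM.add f1 f1 (bS (n + 1)) (bS (n + 1)), hM.add f2 f2 (bD n) (bD n),
      hM.add g1 g2 (bS n) bg2] at e1
    have e2 : M g2 = E n := hM.inv (fun p => slope u a n p ^ 2) _ (bS n)
    have e3 : M g1 = E n := rfl
    have e4 : M f1 = E (n + 1) := rfl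
    rw [e2, e3, e4] at e1
    show M f2 = _
    linarith
  have hnn : ∀ n, 0 ≤ M (fun p => dif u a n p ^ 2) := fun n => hM.pos _ (bD n) fun p => sq_nonneg _
  have hEnn : ∀ n, 0 ≤ E n := fun n => hM.pos _ (bS n) fun p => sq_nonneg _
  have hsum : ∀ n, ∑ i ∈ Finset.range n, M (fun p => dif u a i p ^ 2) ≤ E 0 := by
    intro n
    have : ∑ i ∈ Finset.range n, M (fun p => dif u a i p ^ 2) = E 0 - E n := by
      induction n with
      | zero => simp
      | succ n ih => rw [Finset.sum_range_succ, ih, key]; ring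
    rw [this]
    have := hEnn n
    linarith
  exact (summable_of_sum_range_le hnn hsum).tendsto_atTop_zero

/-- conjugation by a horizontal element moves points only sublinearly -/
theorem conj_le (b : V) (h : Nil D) :
    (hz D (-b) * h * hz D b).nm ≤ h.nm + 2 * √(‖b‖ * h.nm) := by
  have h0 := h.nm_nonneg
  have hb := norm_nonneg b
  have hs := Real.sq_sqrt (mul_nonneg hb h0)
  have hs0 := Real.sqrt_nonneg (‖b‖ * h.nm)
  have e1 : (hz D (-b) * h * hz D b).v = h.v := by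
    simp
  have e2 : (hz D (-b) * h * hz D b).z = h.z - (2 : ℝ) • D.om b h.v := by
    have hsk := D.skew h.v b
    simp only [mul_z, hz_z, mul_v, hz_v, map_add, map_neg, LinearMap.add_apply,
      LinearMap.neg_apply, D.alt, hsk, two_smul]
    abel
  apply nm_le (by positivity)
  · rw [e1]
    exact h.v_le.trans (by linarith)
  · rw [e2]
    have h1 : ‖(2 : ℝ) • D.om b h.v‖ ≤ 4 * (‖b‖ * h.nm) := by
      rw [norm_smul, Real.norm_of_nonneg zero_le_two]
      have h3 := D.bd b h.v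
      have h4 : ‖b‖ * ‖h.v‖ ≤ ‖b‖ * h.nm := mul_le_mul_of_nonneg_left h.v_le hb
      linarith
    calc ‖h.z - (2 : ℝ) • D.om b h.v‖ ≤ ‖h.z‖ + ‖(2 : ℝ) • D.om b h.v‖ := norm_sub_le _ _
      _ ≤ h.nm ^ 2 + 4 * (‖b‖ * h.nm) := add_le_add h.z_le h1
      _ ≤ (h.nm + 2 * √(‖b‖ * h.nm)) ^ 2 := by nlinarith [mul_nonneg h0 hs0]

/-- slopes over long distances do not depend much on the base point -/
theorem slope_far {u : Nil D → ℝ} {K C : ℝ} (hu : CL u K C) (a : V) (g : Nil D) (n m : ℕ)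
    (p : Nil D) :
    |slope u a (n + m) (p * dil (2 ^ n) g) - slope u a (n + m) p| ≤
      (2 * K * g.nm + 2 * C) * (1 / 2 ^ m) + 2 * K * √(‖a‖ * g.nm) * √(1 / 2 ^ m) := by
  obtain ⟨hK, hC, h⟩ := hu
  have hn : (1 : ℝ) ≤ 2 ^ n := one_le_pow₀ (by norm_num)
  have hn' : (0 : ℝ) < 2 ^ n := by positivity
  have hm' : (0 : ℝ) < 2 ^ m := by positivity
  set b : V := (2 : ℝ) ^ (n + m) • a with hb
  set k : Nil D := dil (2 ^ n) g with hk
  have hkn : k.nm = 2 ^ n * g.nm := nm_dil hn'.le g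
  have hbn : ‖b‖ = 2 ^ n * 2 ^ m * ‖a‖ := by
    rw [hb, norm_smul, Real.norm_of_nonneg (by positivity), pow_add]
  have h1 := h (p * k) p
  rw [dd_comm, dd_mul_right, hkn] at h1
  have h2 := h (p * k * hz D b) (p * hz D b)
  have h3 : dd (p * k * hz D b) (p * hz D b) ≤ 2 ^ n * (g.nm + 2 * (√(‖a‖ * g.nm) * √(2 ^ m))) := by
    have e : dd (p * k * hz D b) (p * hz D b) = (hz D (-b) * k * hz D b).nm := by
      rw [dd_comm]
      unfold dd
      rw [← hz_inv]
      congr 1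
      group
    rw [e]
    refine (conj_le b k).trans ?_
    have e2 : √(‖b‖ * k.nm) = 2 ^ n * (√(‖a‖ * g.nm) * √(2 ^ m)) := by
      have : ‖b‖ * k.nm = (2 ^ n) ^ 2 * ((‖a‖ * g.nm) * 2 ^ m) := by
        rw [hbn, hkn]; ring
      rw [this, Real.sqrt_mul (by positivity), Real.sqrt_sq hn'.le,
        Real.sqrt_mul (mul_nonneg (norm_nonneg _) g.nm_nonneg)]
    rw [e2, hkn]
    exact le_of_eq (by ring)
  have hs : √(2 ^ m : ℝ) * √(1 / 2 ^ m) = 1 := by
    rw [← Real.sqrt_mul hm'.le, mul_one_div_cancel hm'.ne', Real.sqrt_one]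
  have hs2 : √(1 / 2 ^ m : ℝ) * √(1 / 2 ^ m) = 1 / 2 ^ m := Real.mul_self_sqrt (by positivity)
  have hs3 : √(2 ^ m : ℝ) * (1 / 2 ^ m) = √(1 / 2 ^ m) := by
    calc √(2 ^ m : ℝ) * (1 / 2 ^ m) = √(2 ^ m) * (√(1 / 2 ^ m) * √(1 / 2 ^ m)) := by rw [hs2]
      _ = √(1 / 2 ^ m) := by rw [← mul_assoc, hs, one_mul]
  have h4 : |slope u a (n + m) (p * k) - slope u a (n + m) p| ≤
      (|u (p * k * hz D b) - u (p * hz D b)| + |u (p * k) - u p|) / (2 ^ n * 2 ^ m) := by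
    unfold slope
    rw [← pow_add, ← hb, ← sub_div, abs_div, abs_of_pos (by positivity : (0 : ℝ) < 2 ^ (n + m))]
    gcongr
    calc _ = |(u (p * k * hz D b) - u (p * hz D b)) - (u (p * k) - u p)| := by
          congr 1; ring
      _ ≤ _ := abs_sub _ _
  refine h4.trans ?_
  rw [div_le_iff₀ (by positivity)]
  have h5 : |u (p * k * hz D b) - u (p * hz D b)| + |u (p * k) - u p| ≤
      2 ^ n * ((2 * K * g.nm + 2 * C) + 2 * K * (√(‖a‖ * g.nm) * √(2 ^ m))) := by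
    have h6 := mul_le_mul_of_nonneg_left h3 hK
    have h7 : C ≤ 2 ^ n * C := le_mul_of_one_le_left hC hn
    nlinarith
  refine h5.trans (le_of_eq ?_)
  have e3 : ((2 * K * g.nm + 2 * C) * (1 / 2 ^ m) + 2 * K * √(‖a‖ * g.nm) * √(1 / 2 ^ m)) *
      (2 ^ n * 2 ^ m) = 2 ^ n * ((2 * K * g.nm + 2 * C) * (1 / 2 ^ m * 2 ^ m) +
        2 * K * √(‖a‖ * g.nm) * (√(1 / 2 ^ m) * 2 ^ m)) := by ring
  have e4 : √(1 / 2 ^ m : ℝ) * 2 ^ m = √(2 ^ m) := by
    rw [← hs3, mul_assoc, one_div_mul_cancel hm'.ne', mul_one]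
  rw [e3, e4, one_div_mul_cancel hm'.ne']
  ring

theorem far_tendsto (c₁ c₂ : ℝ) :
    Filter.Tendsto (fun m : ℕ => c₁ * (1 / 2 ^ m) + c₂ * √(1 / 2 ^ m)) Filter.atTop (nhds 0) := by
  have h1 : Filter.Tendsto (fun m : ℕ => (1 / 2 ^ m : ℝ)) Filter.atTop (nhds 0) := by
    have := tendsto_pow_atTop_nhds_zero_of_lt_one (r := (1 / 2 : ℝ)) (by norm_num) (by norm_num)
    refine this.congr fun m => ?_
    rw [one_div_pow]
  have h2 : Filter.Tendsto (fun m : ℕ => √(1 / 2 ^ m : ℝ)) Filter.atTop (nhds 0) := by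
    have := (Real.continuous_sqrt.tendsto 0).comp h1
    rwa [Real.sqrt_zero] at this
  have := (h1.const_mul c₁).add (h2.const_mul c₂)
  simpa using this

/-- The energy argument: near additivity at a large scale. -/
theorem energy (D : Dat V W) {J : Type} (u : J → Nil D → ℝ) (hu : ∀ j, ∃ K C, CL (u j) K C)
    (T : Finset (Nil D × V × J)) (ε : ℝ) (hε : 0 < ε) (N : ℕ) :
    ∃ (n : ℕ) (p : Nil D), N ≤ n ∧ ∀ t ∈ T,
      |(u t.2.2 (p * dil (2 ^ n) (t.1 * hz D t.2.1)) - u t.2.2 (p * dil (2 ^ n) t.1)) -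
        (u t.2.2 (p * dil (2 ^ n) (hz D t.2.1)) - u t.2.2 p)| ≤ ε * 2 ^ n := by
  classical
  obtain ⟨M, hM⟩ := exists_rm D
  choose K C hCL using hu
  -- the long scale
  obtain ⟨m, hm⟩ : ∃ m : ℕ, ∀ t ∈ T, (2 * K t.2.2 * t.1.nm + 2 * C t.2.2) * (1 / 2 ^ m) +
      2 * K t.2.2 * √(‖t.2.1‖ * t.1.nm) * √(1 / 2 ^ m) < ε / 2 := by
    have h1 : ∀ t ∈ T, ∀ᶠ m : ℕ in Filter.atTop,
        (2 * K t.2.2 * t.1.nm + 2 * C t.2.2) * (1 / 2 ^ m) +
        2 * K t.2.2 * √(‖t.2.1‖ * t.1.nm) * √(1 / 2 ^ m) < ε / 2 := fun t _ =>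
      (far_tendsto _ _).eventually_lt_const (half_pos hε)
    exact ((Filter.eventually_all_finset T).2 h1).exists
  set δ : ℝ := ε / (4 * (m + 1)) with hδ
  have hδ0 : 0 < δ := by positivity
  obtain ⟨k, hk⟩ := exists_nat_gt (1 / δ ^ 2)
  have hk0 : 0 < k := by
    have : (0 : ℝ) < k := lt_trans (by positivity) hk
    exact_mod_cast this
  have hkδ : (1 : ℝ) / k ≤ δ ^ 2 := by
    have hk' : (0 : ℝ) < k := by exact_mod_cast hk0
    rw [div_le_iff₀ hk']
    rw [div_lt_iff₀ (by positivity)] at hk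
    linarith
  -- the small scale
  set S : Finset ((Nil D × V × J) × ℕ) := T ×ˢ Finset.range m with hS
  have hlim : Filter.Tendsto (fun n : ℕ => ∑ x ∈ S,
      (M (fun p => dif (u x.1.2.2) x.1.2.1 (n + x.2) p ^ 2) +
        M (fun p => dif (u x.1.2.2) x.1.2.1 (n + x.2) p ^ 2))) Filter.atTop (nhds 0) := by
    have h0 : (0 : ℝ) = ∑ x ∈ S, ((0 : ℝ) + 0) := by simp
    rw [h0]
    refine tendsto_finsetSum _ fun x _ => ?_
    have h1 := (dif_small hM (hCL x.1.2.2) x.1.2.1).comp (Filter.tendsto_add_atTop_nat x.2)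
    exact h1.add h1
  have hkinv : (0 : ℝ) < 1 / k := by positivity
  obtain ⟨n, hnN, hn⟩ := ((Filter.eventually_ge_atTop N).and
    (hlim.eventually_lt_const hkinv)).exists
  set F : (Nil D × V × J) × ℕ → Nil D → ℝ := fun x p =>
    dif (u x.1.2.2) x.1.2.1 (n + x.2) p ^ 2 +
      dif (u x.1.2.2) x.1.2.1 (n + x.2) (p * dil (2 ^ n) x.1.1) ^ 2 with hF
  have b1 : ∀ x : (Nil D × V × J) × ℕ, Bdd (fun p => dif (u x.1.2.2) x.1.2.1 (n + x.2) p ^ 2) :=
    fun x => sq_bdd (dif_bd (hCL x.1.2.2) x.1.2.1 _)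
  have bF : ∀ x, Bdd (F x) := fun x => (b1 x).add' (bdd_mono (b1 x) _)
  have hMF : ∀ x, M (F x) = M (fun p => dif (u x.1.2.2) x.1.2.1 (n + x.2) p ^ 2) +
      M (fun p => dif (u x.1.2.2) x.1.2.1 (n + x.2) p ^ 2) := by
    intro x
    have h1 := hM.add _ _ (b1 x) (bdd_mono (b1 x) (fun p => p * dil (2 ^ n) x.1.1))
    have h2 := hM.inv _ (dil (2 ^ n) x.1.1) (b1 x)
    rw [h2] at h1
    exact h1
  obtain ⟨c1, c2⟩ := hM.sum S F fun x _ => bF x
  have hMS : M (fun p => ∑ x ∈ S, F x p) < 1 / k := by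
    rw [c2]
    simpa only [hMF] using hn
  obtain ⟨p, hp⟩ := hM.mono_exists _ c1 k hk0 hMS
  refine ⟨n, p, hnN, fun t ht => ?_⟩
  have hsmall : ∀ i < m, |dif (u t.2.2) t.2.1 (n + i) p| ≤ δ ∧
      |dif (u t.2.2) t.2.1 (n + i) (p * dil (2 ^ n) t.1)| ≤ δ := by
    intro i hi
    have h1 : F (t, i) p ≤ ∑ x ∈ S, F x p :=
      Finset.single_le_sum (f := fun x => F x p)
        (fun x _ => add_nonneg (sq_nonneg _) (sq_nonneg _))
        (Finset.mem_product.2 ⟨ht, Finset.mem_range.2 hi⟩)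
    have h2 : F (t, i) p ≤ δ ^ 2 := h1.trans (hp.le.trans hkδ)
    simp only [hF] at h2
    constructor
    · apply abs_le_of_sq_le_sq _ hδ0.le
      nlinarith [sq_nonneg (dif (u t.2.2) t.2.1 (n + i) (p * dil (2 ^ n) t.1))]
    · apply abs_le_of_sq_le_sq _ hδ0.le
      nlinarith [sq_nonneg (dif (u t.2.2) t.2.1 (n + i) p)]
  have hsum : ∀ q : Nil D, (∀ i < m, |dif (u t.2.2) t.2.1 (n + i) q| ≤ δ) →
      |slope (u t.2.2) t.2.1 (n + m) q - slope (u t.2.2) t.2.1 n q| ≤ ε / 4 := by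
    intro q hq
    rw [slope_add, add_sub_cancel_left]
    calc |∑ i ∈ Finset.range m, dif (u t.2.2) t.2.1 (n + i) q|
        ≤ ∑ i ∈ Finset.range m, |dif (u t.2.2) t.2.1 (n + i) q| := Finset.abs_sum_le_sum_abs _ _
      _ ≤ ∑ i ∈ Finset.range m, δ := Finset.sum_le_sum fun i hi => hq i (Finset.mem_range.1 hi)
      _ = m * δ := by simp
      _ ≤ ε / 4 := by
        rw [hδ]
        have : (0 : ℝ) ≤ m := Nat.cast_nonneg m
        rw [mul_div_assoc', div_le_iff₀ (by positivity)]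
        nlinarith
  have h1 := hsum p fun i hi => (hsmall i hi).1
  have h2 := hsum (p * dil (2 ^ n) t.1) fun i hi => (hsmall i hi).2
  have h3 := slope_far (hCL t.2.2) t.2.1 t.1 n m p
  have h4 := hm t ht
  have h5 : |slope (u t.2.2) t.2.1 n (p * dil (2 ^ n) t.1) - slope (u t.2.2) t.2.1 n p| ≤ ε := by
    rw [abs_le] at *
    constructor <;> linarith
  have hn' : (0 : ℝ) < 2 ^ n := by positivity
  have e : (u t.2.2 (p * dil (2 ^ n) (t.1 * hz D t.2.1)) - u t.2.2 (p * dil (2 ^ n) t.1)) -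
        (u t.2.2 (p * dil (2 ^ n) (hz D t.2.1)) - u t.2.2 p) =
      (slope (u t.2.2) t.2.1 n (p * dil (2 ^ n) t.1) - slope (u t.2.2) t.2.1 n p) * 2 ^ n := by
    unfold slope
    rw [dil_mul, dil_hz, ← mul_assoc]
    field_simp
  rw [e, abs_mul, abs_of_pos hn']
  exact mul_le_mul_of_nonneg_right h5 hn'.le

end Pool.Agent.K9h81.CT
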