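import Pool.Agent.K9h81.CT.Net

/-!
# The two-step groups: quotients of a product of four Heisenberg groups
-/

set_option autoImplicit false

namespace Pool.Agent.K9h81.CT

open Nil

/-- the horizontal space -/
abbrev V8 : Type := Fin 4 → ℝ × ℝ
/-- the centre -/
abbrev W2 : Type := ℝ × ℝ

/-- the area forms of the four planes -/
def ar (i : Fin 4) (v w : V8) : ℝ := (v i).1 * (w i).2 - (v i).2 * (w i).1

theorem ar_le (i : Fin 4) (v w : V8) : |ar i v w| ≤ 2 * (‖v‖ * ‖w‖) := by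
  have h1 : |(v i).1| ≤ ‖v‖ := (norm_fst_le (v i)).trans (norm_le_pi_norm v i)
  have h2 : |(v i).2| ≤ ‖v‖ := (norm_snd_le (v i)).trans (norm_le_pi_norm v i)
  have h3 : |(w i).1| ≤ ‖w‖ := (norm_fst_le (w i)).trans (norm_le_pi_norm w i)
  have h4 : |(w i).2| ≤ ‖w‖ := (norm_snd_le (w i)).trans (norm_le_pi_norm w i)
  have h5 : |(v i).1 * (w i).2| ≤ ‖v‖ * ‖w‖ := by
    rw [abs_mul]; exact mul_le_mul h1 h4 (abs_nonneg _) (norm_nonneg _)
  have h6 : |(v i).2 * (w i).1| ≤ ‖v‖ * ‖w‖ := by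
    rw [abs_mul]; exact mul_le_mul h2 h3 (abs_nonneg _) (norm_nonneg _)
  calc |ar i v w| ≤ |(v i).1 * (w i).2| + |(v i).2 * (w i).1| := abs_sub _ _
    _ ≤ _ := by linarith

/-- The structure map with parameter `l`. -/
noncomputable def om (l : ℝ) : V8 →ₗ[ℝ] V8 →ₗ[ℝ] W2 :=
  LinearMap.mk₂ ℝ (fun v w => ((ar 0 v w + ar 2 v w + ar 3 v w) / 3,
    (ar 1 v w + ar 2 v w + l * ar 3 v w) / 3))
    (by intro a b c; ext <;> simp [ar] <;> ring)
    (by intro t a b; ext <;> simp [ar] <;> ring)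
    (by intro a b c; ext <;> simp [ar] <;> ring)
    (by intro t a b; ext <;> simp [ar] <;> ring)

theorem om_apply (l : ℝ) (v w : V8) : om l v w = ((ar 0 v w + ar 2 v w + ar 3 v w) / 3,
    (ar 1 v w + ar 2 v w + l * ar 3 v w) / 3) := rfl

/-- The group data with parameter `l ∈ (0, 1)`. -/
noncomputable def dat (l : Set.Ioo (0 : ℝ) 1) : Dat V8 W2 where
  om := om l
  alt := by
    intro v
    rw [om_apply]
    ext <;> simp [ar] <;> ring
  bd := by
    intro v w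
    have h0 := ar_le 0 v w
    have h1 := ar_le 1 v w
    have h2 := ar_le 2 v w
    have h3 := ar_le 3 v w
    have hl := l.2
    rw [om_apply, Prod.norm_def]
    apply max_le
    · rw [Real.norm_eq_abs, abs_div, abs_of_pos (by norm_num : (0 : ℝ) < 3), div_le_iff₀ (by norm_num)]
      calc |ar 0 v w + ar 2 v w + ar 3 v w| ≤ |ar 0 v w + ar 2 v w| + |ar 3 v w| := abs_add_le _ _
        _ ≤ |ar 0 v w| + |ar 2 v w| + |ar 3 v w| := by gcongr; exact abs_add_le _ _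
        _ ≤ _ := by linarith
    · rw [Real.norm_eq_abs, abs_div, abs_of_pos (by norm_num : (0 : ℝ) < 3), div_le_iff₀ (by norm_num)]
      have h4 : |(l : ℝ) * ar 3 v w| ≤ |ar 3 v w| := by
        rw [abs_mul, abs_of_pos hl.1]
        exact mul_le_of_le_one_left (abs_nonneg _) hl.2.le
      calc |ar 1 v w + ar 2 v w + l * ar 3 v w| ≤ |ar 1 v w + ar 2 v w| + |l * ar 3 v w| :=
            abs_add_le _ _
        _ ≤ |ar 1 v w| + |ar 2 v w| + |l * ar 3 v w| := by gcongr; exact abs_add_le _ _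
        _ ≤ _ := by linarith

theorem dat_om (l : Set.Ioo (0 : ℝ) 1) (v w : V8) : (dat l).om v w =
    ((ar 0 v w + ar 2 v w + ar 3 v w) / 3, (ar 1 v w + ar 2 v w + l * ar 3 v w) / 3) := rfl

theorem exists_prod (s : ℝ) : ∃ α β : ℝ, α * β = 3 * s / 2 ∧ |α| ≤ 2 * √|s| ∧ |β| ≤ 2 * √|s| := by
  have h1 : √(3 * |s| / 2) ≤ 2 * √|s| := by
    rw [show (2 : ℝ) * √|s| = √(2 ^ 2 * |s|) by
      rw [Real.sqrt_mul (by positivity), Real.sqrt_sq (by norm_num)]]
    apply Real.sqrt_le_sqrt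
    have := abs_nonneg s
    linarith
  have h2 : √(3 * |s| / 2) * √(3 * |s| / 2) = 3 * |s| / 2 := Real.mul_self_sqrt (by positivity)
  have h0 := Real.sqrt_nonneg (3 * |s| / 2)
  rcases le_total 0 s with h | h
  · refine ⟨√(3 * |s| / 2), √(3 * |s| / 2), ?_, ?_, ?_⟩
    · rw [h2, abs_of_nonneg h]
    · rwa [abs_of_nonneg h0]
    · rwa [abs_of_nonneg h0]
  · refine ⟨√(3 * |s| / 2), -√(3 * |s| / 2), ?_, ?_, ?_⟩
    · rw [mul_neg, h2, abs_of_nonpos h]; ring
    · rwa [abs_of_nonneg h0]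
    · rwa [abs_neg, abs_of_nonneg h0]

theorem norm_single (i : Fin 4) (x : ℝ × ℝ) : ‖(Pi.single i x : V8)‖ = ‖x‖ :=
  Pi.norm_single (G := fun _ : Fin 4 => ℝ × ℝ) x

theorem dat_genB (l : Set.Ioo (0 : ℝ) 1) : GenB (dat l) := by
  intro c
  obtain ⟨α, β, h1, h2, h3⟩ := exists_prod c.1
  obtain ⟨γ, δ, k1, k2, k3⟩ := exists_prod c.2
  have n1 : √|c.1| ≤ √‖c‖ := Real.sqrt_le_sqrt (norm_fst_le c)
  have n2 : √|c.2| ≤ √‖c‖ := Real.sqrt_le_sqrt (norm_snd_le c)
  refine ⟨Pi.single 0 (α, 0), Pi.single 0 (0, β), Pi.single 1 (γ, 0), Pi.single 1 (0, δ),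
    ?_, ?_, ?_, ?_, ?_⟩
  · rw [dat_om, dat_om]
    ext
    · simp [ar]; linarith
    · simp [ar]; linarith
  · rw [norm_single, Prod.norm_mk, norm_zero, max_eq_left (norm_nonneg _), Real.norm_eq_abs]
    linarith
  · rw [norm_single, Prod.norm_mk, norm_zero, max_eq_right (norm_nonneg _), Real.norm_eq_abs]
    linarith
  · rw [norm_single, Prod.norm_mk, norm_zero, max_eq_left (norm_nonneg _), Real.norm_eq_abs]
    linarith
  · rw [norm_single, Prod.norm_mk, norm_zero, max_eq_right (norm_nonneg _), Real.norm_eq_abs]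
    linarith

/-- the vertices -/
abbrev T10 : Type := (Fin 4 → ℤ × ℤ) × (ℤ × ℤ)

/-- the net of integer points -/
noncomputable def io (l : Set.Ioo (0 : ℝ) 1) (t : T10) : Nil (dat l) :=
  ⟨fun i => (((t.1 i).1 : ℝ), ((t.1 i).2 : ℝ)), ((t.2.1 : ℝ), (t.2.2 : ℝ))⟩

theorem io_net (l : Set.Ioo (0 : ℝ) 1) (p : Nil (dat l)) : ∃ t, dd (io l t) p ≤ 1 := by
  have hr : ∀ x : ℝ, |(-(round x : ℝ)) + x| ≤ 1 := by
    intro x
    rw [neg_add_eq_sub]
    exact (abs_sub_round x).trans (by norm_num)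
  set m : Fin 4 → ℤ × ℤ := fun i => (round (p.v i).1, round (p.v i).2) with hm
  set m' : V8 := fun i => (((m i).1 : ℝ), ((m i).2 : ℝ)) with hm'
  set c : W2 := p.z + (dat l).om (-m') p.v with hc
  refine ⟨(m, (round c.1, round c.2)), ?_⟩
  unfold dd
  apply nm_le zero_le_one
  · rw [mul_v, inv_v, pi_norm_le_iff_of_nonneg zero_le_one]
    intro i
    rw [Prod.norm_def]
    exact max_le (hr _) (hr _)
  · have e : ((io l (m, (round c.1, round c.2)))⁻¹ * p).z =
        -((round c.1 : ℝ), (round c.2 : ℝ)) + c := by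
      rw [mul_z, inv_z, inv_v, hc, add_assoc]
      rfl
    rw [e, one_pow, Prod.norm_def]
    exact max_le (hr _) (hr _)

/-- a box in the plane of integers -/
noncomputable def bx2 (k : ℕ) : Finset (ℤ × ℤ) := Finset.Icc (-(k : ℤ)) k ×ˢ Finset.Icc (-(k : ℤ)) k

/-- a box in the set of vertices -/
noncomputable def bx (k : ℕ) : Finset T10 := Fintype.piFinset (fun _ : Fin 4 => bx2 k) ×ˢ bx2 k

theorem box_card (k : ℕ) : (bx k).card = (2 * k + 1) ^ 10 := by
  have h1 : (Finset.Icc (-(k : ℤ)) (k : ℤ)).card = 2 * k + 1 := by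
    rw [Int.card_Icc]; omega
  have h2 : (bx2 k).card = (2 * k + 1) ^ 2 := by
    rw [bx2, Finset.card_product, h1]; ring
  rw [bx, Finset.card_product, Fintype.card_piFinset_const, h2]
  ring

theorem io_cnt (l : Set.Ioo (0 : ℝ) 1) : Cnt (io l) (3 ^ 10) 20 := by
  intro r p
  set k : ℕ := r ^ 2 + r + 1 with hk
  set B : Finset T10 := bx k with hB
  -- the horizontal part of a point, as a real vector
  let re : (Fin 4 → ℤ × ℤ) → V8 := fun m i => (((m i).1 : ℝ), ((m i).2 : ℝ))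
  let cc : (Fin 4 → ℤ × ℤ) → W2 := fun m => p.z + (dat l).om (-re m) p.v
  let Φ : T10 → T10 := fun t => (fun i => ((t.1 i).1 - ⌊(p.v i).1⌋, (t.1 i).2 - ⌊(p.v i).2⌋),
    (t.2.1 - ⌊(cc t.1).1⌋, t.2.2 - ⌊(cc t.1).2⌋))
  have hinj : Function.Injective Φ := by
    intro s t hst
    have h1 : s.1 = t.1 := by
      funext i
      have h2 := congrFun (congrArg Prod.fst hst) i
      have h3 := congrArg Prod.fst h2
      have h4 := congrArg Prod.snd h2
      simp only [Φ] at h3 h4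
      ext
      · linarith
      · linarith
    have h2 := congrArg (fun x => x.2.1) hst
    have h3 := congrArg (fun x => x.2.2) hst
    simp only [Φ, h1] at h2 h3
    ext1
    · exact h1
    · ext
      · linarith
      · linarith
  have hfl : ∀ (a : ℤ) (x : ℝ) (ρ : ℕ), |-(a : ℝ) + x| ≤ ρ → ρ + 1 ≤ k →
      -(k : ℤ) ≤ a - ⌊x⌋ ∧ a - ⌊x⌋ ≤ k := by
    intro a x ρ h1 h2
    have h3 := Int.floor_le x
    have h4 := Int.lt_floor_add_one x
    rw [abs_le] at h1
    have h5 : ((ρ : ℝ) + 1) ≤ k := by exact_mod_cast h2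
    constructor
    · have : (-(k : ℝ)) ≤ (a : ℝ) - ⌊x⌋ := by linarith
      exact_mod_cast this
    · have : (a : ℝ) - ⌊x⌋ ≤ k := by linarith
      exact_mod_cast this
  have hmem : ∀ t, dd (io l t) p ≤ r → Φ t ∈ B := by
    intro t ht
    have h1 := (v_le ((io l t)⁻¹ * p)).trans ht
    have h2 := (z_le ((io l t)⁻¹ * p)).trans (pow_le_pow_left₀ (nm_nonneg _) ht 2)
    have hv : ∀ i, |-((t.1 i).1 : ℝ) + (p.v i).1| ≤ r ∧ |-((t.1 i).2 : ℝ) + (p.v i).2| ≤ r := by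
      intro i
      have h3 := (norm_le_pi_norm ((io l t)⁻¹ * p).v i).trans h1
      exact ⟨(norm_fst_le _).trans h3, (norm_snd_le _).trans h3⟩
    have e : ((io l t)⁻¹ * p).z = -((t.2.1 : ℝ), (t.2.2 : ℝ)) + cc t.1 := by
      rw [mul_z, inv_z, inv_v, add_assoc]
      rfl
    rw [e] at h2
    have hw1 : |-(t.2.1 : ℝ) + (cc t.1).1| ≤ (r ^ 2 : ℕ) := by
      have := (norm_fst_le _).trans h2
      push_cast
      exact this
    have hw2 : |-(t.2.2 : ℝ) + (cc t.1).2| ≤ (r ^ 2 : ℕ) := by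
      have := (norm_snd_le _).trans h2
      push_cast
      exact this
    have a1 : ∀ i, _ := fun i => hfl _ _ r (hv i).1 (by rw [hk]; nlinarith)
    have a2 : ∀ i, _ := fun i => hfl _ _ r (hv i).2 (by rw [hk]; nlinarith)
    have a3 := hfl _ _ (r ^ 2) hw1 (by rw [hk]; nlinarith)
    have a4 := hfl _ _ (r ^ 2) hw2 (by rw [hk]; nlinarith)
    rw [hB, bx, Finset.mem_product, Fintype.mem_piFinset, bx2]
    simp only [Finset.mem_product, Finset.mem_Icc]
    exact ⟨fun i => ⟨a1 i, a2 i⟩, ⟨a3, a4⟩⟩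
  have hsub : {t | dd (io l t) p ≤ r} ⊆ Φ ⁻¹' (B : Set T10) := fun t ht => hmem t ht
  have hfin : (Φ ⁻¹' (B : Set T10)).Finite := B.finite_toSet.preimage hinj.injOn
  refine ⟨hfin.subset hsub, (Set.ncard_le_ncard hsub hfin).trans ?_⟩
  have h1 : (Φ ⁻¹' (B : Set T10)).ncard ≤ B.card := by
    rw [← Set.ncard_coe_finset]
    apply Set.ncard_le_ncard_of_injOn Φ (fun t ht => ht) hinj.injOn B.finite_toSet
  refine h1.trans ?_
  rw [hB, box_card]
  calc (2 * k + 1) ^ 10 ≤ (3 * (r + 1) ^ 2) ^ 10 := by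
        gcongr
        rw [hk]
        nlinarith
    _ = 3 ^ 10 * (r + 1) ^ 20 := by ring

end Pool.Agent.K9h81.CT
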