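import Pool.Agent.K9h81.CT.Nil

/-!
# Nets in two-step groups and their graphs
-/

set_option autoImplicit false

namespace Pool.Agent.K9h81.CT

open Nil

variable {V W : Type} [NormedAddCommGroup V] [NormedSpace ℝ V] [NormedAddCommGroup W]
  [NormedSpace ℝ W] {D : Dat V W}

/-- the centre consists of products of two commutators, with control of the norms -/
def GenB (D : Dat V W) : Prop :=
  ∀ c : W, ∃ a b a' b' : V, c = (2 : ℝ) • D.om a b + (2 : ℝ) • D.om a' b' ∧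
    ‖a‖ ≤ 2 * √‖c‖ ∧ ‖b‖ ≤ 2 * √‖c‖ ∧ ‖a'‖ ≤ 2 * √‖c‖ ∧ ‖b'‖ ≤ 2 * √‖c‖

theorem hz_word (a : V) : ∃ l : List (Nil D), (l.length : ℝ) ≤ ‖a‖ + 1 ∧ (∀ x ∈ l, x.nm ≤ 1) ∧
    l.prod = hz D a := by
  set k := ⌈‖a‖⌉₊ with hk
  have hk1 : ‖a‖ ≤ k := Nat.le_ceil _
  refine ⟨List.replicate k (hz D ((1 / (k : ℝ)) • a)), ?_, ?_, ?_⟩
  · rw [List.length_replicate]
    exact (Nat.ceil_lt_add_one (norm_nonneg _)).le
  · intro x hx
    rw [List.eq_of_mem_replicate hx, nm_hz, norm_smul, Real.norm_of_nonneg (by positivity),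
      one_div]
    rcases Nat.eq_zero_or_pos k with h | h
    · rw [h]; simp
    · have : (0 : ℝ) < k := by exact_mod_cast h
      rw [inv_mul_le_iff₀ this, mul_one]
      exact hk1
  · rw [List.prod_replicate]
    have hpow : ∀ (b : V) (j : ℕ), hz D b ^ j = hz D ((j : ℝ) • b) := by
      intro b j
      induction j with
      | zero => simp
      | succ j ih =>
        rw [pow_succ, ih]
        have := hz_smul_mul (D := D) (j : ℝ) 1 b
        rw [one_smul] at this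
        rw [this]
        push_cast
        rfl
    rw [hpow, smul_smul]
    rcases Nat.eq_zero_or_pos k with h | h
    · have h0 : ‖a‖ ≤ 0 := by rw [h] at hk1; simpa using hk1
      have ha : a = 0 := norm_le_zero_iff.1 h0
      rw [ha, smul_zero]
    · have : (k : ℝ) ≠ 0 := by positivity
      rw [mul_one_div_cancel this, one_smul]

theorem word (hG : GenB D) (p : Nil D) : ∃ l : List (Nil D), (l.length : ℝ) ≤ 17 * p.nm + 9 ∧
    (∀ x ∈ l, x.nm ≤ 1) ∧ l.prod = p := by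
  obtain ⟨a, b, a', b', hc, n1, n2, n3, n4⟩ := hG p.z
  have hz1 : √‖p.z‖ ≤ p.nm := le_max_right _ _
  have hp : p = hz D p.v * ((hz D a * hz D b * hz D (-a) * hz D (-b)) *
        (hz D a' * hz D b' * hz D (-a') * hz D (-b'))) := by
    rw [comm_hz, comm_hz, cz_mul, ← hc, hz_mul_cz]
  have hP : ∀ (x y : Nil D) (m n : ℝ),
      (∃ l : List (Nil D), (l.length : ℝ) ≤ m ∧ (∀ x ∈ l, x.nm ≤ 1) ∧ l.prod = x) →
      (∃ l : List (Nil D), (l.length : ℝ) ≤ n ∧ (∀ x ∈ l, x.nm ≤ 1) ∧ l.prod = y) →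
      (∃ l : List (Nil D), (l.length : ℝ) ≤ m + n ∧ (∀ x ∈ l, x.nm ≤ 1) ∧ l.prod = x * y) := by
    rintro x y m n ⟨l, a1, a2, a3⟩ ⟨l', b1, b2, b3⟩
    refine ⟨l ++ l', ?_, ?_, ?_⟩
    · rw [List.length_append]; push_cast; linarith
    · intro z hz
      rcases List.mem_append.1 hz with h | h
      · exact a2 z h
      · exact b2 z h
    · rw [List.prod_append, a3, b3]
  have w := fun a => hz_word (D := D) a
  obtain ⟨l, h1, h2, h3⟩ := hP _ _ _ _ (w p.v) (hP _ _ _ _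
    (hP _ _ _ _ (hP _ _ _ _ (hP _ _ _ _ (w a) (w b)) (w (-a))) (w (-b)))
    (hP _ _ _ _ (hP _ _ _ _ (hP _ _ _ _ (w a') (w b')) (w (-a'))) (w (-b'))))
  refine ⟨l, h1.trans ?_, h2, h3.trans hp.symm⟩
  have := p.v_le
  simp only [norm_neg]
  linarith

variable {T : Type} (ι : T → Nil D)

/-- the graph of a net -/
def gr : SimpleGraph T := SimpleGraph.fromRel fun s t => dd (ι s) (ι t) ≤ 3

theorem gr_adj (s t : T) : (gr ι).Adj s t ↔ s ≠ t ∧ dd (ι s) (ι t) ≤ 3 := by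
  unfold gr
  rw [SimpleGraph.fromRel_adj, dd_comm (ι t) (ι s), or_self]

theorem short {s t : T} (h : dd (ι s) (ι t) ≤ 3) : ∃ w : (gr ι).Walk s t, w.length ≤ 1 := by
  by_cases e : s = t
  · subst e
    exact ⟨SimpleGraph.Walk.nil, by simp⟩
  · exact ⟨SimpleGraph.Walk.cons ((gr_adj ι s t).2 ⟨e, h⟩) SimpleGraph.Walk.nil, by simp⟩

theorem walk_of_list (hnet : ∀ p, ∃ t, dd (ι t) p ≤ 1) (l : List (Nil D))
    (hl : ∀ x ∈ l, x.nm ≤ 1) : ∀ (t : T) (p : Nil D), dd (ι t) p ≤ 1 →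
      ∀ t', dd (ι t') (p * l.prod) ≤ 1 → ∃ w : (gr ι).Walk t t', w.length ≤ l.length + 1 := by
  induction l with
  | nil =>
    intro t p ht t' ht'
    rw [List.prod_nil, mul_one, dd_comm] at ht'
    have := dd_tri (ι t) p (ι t')
    obtain ⟨w, hw⟩ := short ι (s := t) (t := t') (by linarith)
    exact ⟨w, by simpa using hw⟩
  | cons a l ih =>
    intro t p ht t' ht'
    obtain ⟨t₁, ht₁⟩ := hnet (p * a)
    have ha : a.nm ≤ 1 := hl a (by simp)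
    have h1 := dd_tri (ι t) p (ι t₁)
    have h2 := dd_tri p (p * a) (ι t₁)
    rw [dd_mul_right] at h2
    rw [dd_comm (p * a)] at h2
    obtain ⟨w, hw⟩ := short ι (s := t) (t := t₁) (by linarith)
    rw [List.prod_cons, ← mul_assoc] at ht'
    obtain ⟨w', hw'⟩ := ih (fun x hx => hl x (by simp [hx])) t₁ (p * a) ht₁ t' ht'
    refine ⟨w.append w', ?_⟩
    rw [SimpleGraph.Walk.length_append, List.length_cons]
    omega

theorem gr_dist (hG : GenB D) (hnet : ∀ p, ∃ t, dd (ι t) p ≤ 1) (s t : T) :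
    (gr ι).Reachable s t ∧ ((gr ι).dist s t : ℝ) ≤ 17 * dd (ι s) (ι t) + 10 := by
  obtain ⟨l, h1, h2, h3⟩ := word hG ((ι s)⁻¹ * ι t)
  obtain ⟨w, hw⟩ := walk_of_list ι hnet l h2 s (ι s) (by simp) t (by rw [h3]; simp)
  refine ⟨w.reachable, ?_⟩
  have h4 := SimpleGraph.dist_le w
  have h5 : ((gr ι).dist s t : ℝ) ≤ l.length + 1 := by exact_mod_cast h4.trans hw
  have h6 : dd (ι s) (ι t) = ((ι s)⁻¹ * ι t).nm := rfl
  rw [h6]
  linarith

theorem gr_connected (hG : GenB D) (hnet : ∀ p, ∃ t, dd (ι t) p ≤ 1) : (gr ι).Connected := by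
  obtain ⟨t, -⟩ := hnet 1
  have : Nonempty T := ⟨t⟩
  exact SimpleGraph.Connected.mk fun a b => (gr_dist ι hG hnet a b).1

theorem le_walk {s t : T} (w : (gr ι).Walk s t) : dd (ι s) (ι t) ≤ 3 * w.length := by
  induction w with
  | nil => simp
  | @cons u v t hadj w ih =>
    have h1 := ((gr_adj ι u v).1 hadj).2
    have h2 := dd_tri (ι u) (ι v) (ι t)
    rw [SimpleGraph.Walk.length_cons]
    push_cast
    linarith

theorem le_gr (hc : (gr ι).Connected) (s t : T) : dd (ι s) (ι t) ≤ 3 * (gr ι).dist s t := by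
  obtain ⟨w, hw⟩ := hc.exists_walk_length_eq_dist s t
  rw [← hw]
  exact le_walk ι w

/-- counting hypothesis -/
def Cnt (cc k : ℕ) : Prop :=
  ∀ (r : ℕ) (p : Nil D), {t | dd (ι t) p ≤ r}.Finite ∧ {t | dd (ι t) p ≤ r}.ncard ≤ cc * (r + 1) ^ k

theorem loc_fin {cc k : ℕ} (hcnt : Cnt ι cc k) (t : T) : ((gr ι).neighborSet t).Finite := by
  refine (hcnt 3 (ι t)).1.subset fun s hs => ?_
  rw [SimpleGraph.mem_neighborSet, gr_adj] at hs
  show dd (ι s) (ι t) ≤ _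
  rw [dd_comm]
  exact_mod_cast hs.2

theorem growth {cc k : ℕ} (hc : (gr ι).Connected) (hcnt : Cnt ι cc k) (t : T) (r : ℕ) :
    Set.ncard {w | (gr ι).dist t w ≤ r} ≤ (cc * 3 ^ k) * (r + 1) ^ k := by
  obtain ⟨h1, h2⟩ := hcnt (3 * r) (ι t)
  have h3 : {w | (gr ι).dist t w ≤ r} ⊆ {w | dd (ι w) (ι t) ≤ (3 * r : ℕ)} := by
    intro w hw
    have h4 := le_gr ι hc t w
    have h5 : ((gr ι).dist t w : ℝ) ≤ r := by exact_mod_cast hw
    show dd (ι w) (ι t) ≤ _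
    rw [dd_comm]
    push_cast
    linarith
  calc Set.ncard {w | (gr ι).dist t w ≤ r} ≤ _ := Set.ncard_le_ncard h3 h1
    _ ≤ cc * (3 * r + 1) ^ k := h2
    _ ≤ cc * (3 * (r + 1)) ^ k := by gcongr; omega
    _ = _ := by rw [mul_pow]; ring

theorem asdim {cc k : ℕ} (hG : GenB D) (hnet : ∀ p, ∃ t, dd (ι t) p ≤ 1) (hcnt : Cnt ι cc k)
    (R : ℕ) : ∃ (U : T → Set T) (B : ℕ),
      (∀ i, ∀ x ∈ U i, ∀ y ∈ U i, (gr ι).dist x y ≤ B) ∧ (∀ x, ∃ i, x ∈ U i) ∧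
      ∀ x, {i | ∃ y ∈ U i, (gr ι).dist x y ≤ R}.Finite ∧
        Set.ncard {i | ∃ y ∈ U i, (gr ι).dist x y ≤ R} ≤ cc * 3 ^ k + 1 := by
  have hc := gr_connected ι hG hnet
  set s : ℝ := 3 * R + 1 with hs
  have hs0 : 0 < s := by positivity
  obtain ⟨B, hB⟩ := exists_nat_ge (17 * (2 * s) + 10)
  refine ⟨fun w => {x | dd (ι x) (dil s (ι w)) ≤ s}, B, ?_, ?_, ?_⟩
  · intro i x hx y hy
    have h1 := (gr_dist ι hG hnet x y).2
    have h2 := dd_tri (ι x) (dil s (ι i)) (ι y)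
    have hx' : dd (ι x) (dil s (ι i)) ≤ s := hx
    have hy' : dd (ι y) (dil s (ι i)) ≤ s := hy
    rw [dd_comm (dil s (ι i))] at h2
    have h3 : ((gr ι).dist x y : ℝ) ≤ B := by linarith
    exact_mod_cast h3
  · intro x
    obtain ⟨w, hw⟩ := hnet (dil (1 / s) (ι x))
    refine ⟨w, ?_⟩
    show dd (ι x) (dil s (ι w)) ≤ s
    have h1 := dd_dil hs0.le (ι w) (dil (1 / s) (ι x))
    rw [dil_dil, mul_one_div_cancel hs0.ne', one_dil] at h1
    rw [dd_comm, h1]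
    nlinarith
  · intro x
    have hsub : {i | ∃ y ∈ {x | dd (ι x) (dil s (ι i)) ≤ s}, (gr ι).dist x y ≤ R} ⊆
        {t | dd (ι t) (dil (1 / s) (ι x)) ≤ (2 : ℕ)} := by
      rintro i ⟨y, hy, hxy⟩
      have hy' : dd (ι y) (dil s (ι i)) ≤ s := hy
      have h1 := le_gr ι hc x y
      have h2 : ((gr ι).dist x y : ℝ) ≤ R := by exact_mod_cast hxy
      have h3 := dd_tri (ι x) (ι y) (dil s (ι i))
      have h4 : dd (ι x) (dil s (ι i)) ≤ 2 * s := by linarith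
      show dd (ι i) (dil (1 / s) (ι x)) ≤ _
      have h5 := dd_dil hs0.le (ι i) (dil (1 / s) (ι x))
      rw [dil_dil, mul_one_div_cancel hs0.ne', one_dil, dd_comm] at h5
      rw [h5] at h4
      push_cast
      nlinarith
    obtain ⟨h1, h2⟩ := hcnt 2 (dil (1 / s) (ι x))
    refine ⟨h1.subset hsub, ?_⟩
    exact (Set.ncard_le_ncard hsub h1).trans (h2.trans (Nat.le_succ _))

theorem ctrans (hG : GenB D) (hnet : ∀ p, ∃ t, dd (ι t) p ≤ 1) (x y : T) : ∃ f : T → T,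
    (∀ a b : T, ((gr ι).dist a b : ℝ) / 51 - 44 ≤ ((gr ι).dist (f a) (f b) : ℝ) ∧
      ((gr ι).dist (f a) (f b) : ℝ) ≤ 51 * ((gr ι).dist a b : ℝ) + 44) ∧
    (∀ z : T, ∃ a : T, ((gr ι).dist (f a) z : ℝ) ≤ 44) ∧ ((gr ι).dist (f x) y : ℝ) ≤ 44 := by
  have hc := gr_connected ι hG hnet
  set g : Nil D := ι y * (ι x)⁻¹ with hg
  choose ρ hρ using hnet
  refine ⟨fun t => ρ (g * ι t), ?_, ?_, ?_⟩
  · intro a b
    have h1 := (gr_dist ι hG (fun p => ⟨ρ p, hρ p⟩) a b).2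
    have h2 := (gr_dist ι hG (fun p => ⟨ρ p, hρ p⟩) (ρ (g * ι a)) (ρ (g * ι b))).2
    have h3 := le_gr ι hc a b
    have h4 := le_gr ι hc (ρ (g * ι a)) (ρ (g * ι b))
    have h5 := dd_tri (ι (ρ (g * ι a))) (g * ι a) (ι (ρ (g * ι b)))
    have h6 := dd_tri (g * ι a) (g * ι b) (ι (ρ (g * ι b)))
    have h7 := hρ (g * ι a)
    have h8 := hρ (g * ι b)
    have h9 := dd_tri (g * ι a) (ι (ρ (g * ι a))) (g * ι b)
    have h10 := dd_tri (ι (ρ (g * ι a))) (ι (ρ (g * ι b))) (g * ι b)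
    rw [dd_comm (g * ι b) (ι (ρ (g * ι b)))] at h6
    rw [dd_comm (g * ι a) (ι (ρ (g * ι a)))] at h9
    rw [dd_mul_left] at h6 h9
    constructor
    · rw [sub_le_iff_le_add, div_le_iff₀ (by norm_num)]
      have : (0 : ℝ) ≤ (gr ι).dist (ρ (g * ι a)) (ρ (g * ι b)) := Nat.cast_nonneg _
      linarith
    · linarith
  · intro z
    refine ⟨ρ (g⁻¹ * ι z), ?_⟩
    have h1 := (gr_dist ι hG (fun p => ⟨ρ p, hρ p⟩) (ρ (g * ι (ρ (g⁻¹ * ι z)))) z).2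
    have h2 := hρ (g * ι (ρ (g⁻¹ * ι z)))
    have h3 := hρ (g⁻¹ * ι z)
    have h4 := dd_tri (ι (ρ (g * ι (ρ (g⁻¹ * ι z))))) (g * ι (ρ (g⁻¹ * ι z))) (ι z)
    have h5 : dd (g * ι (ρ (g⁻¹ * ι z))) (ι z) = dd (ι (ρ (g⁻¹ * ι z))) (g⁻¹ * ι z) := by
      rw [← dd_mul_left g⁻¹, inv_mul_cancel_left]
    rw [h5] at h4
    show ((gr ι).dist (ρ (g * ι (ρ (g⁻¹ * ι z)))) z : ℝ) ≤ 44
    linarith
  · have e : g * ι x = ι y := by rw [hg]; group
    have h1 := (gr_dist ι hG (fun p => ⟨ρ p, hρ p⟩) (ρ (g * ι x)) y).2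
    have h2 := hρ (g * ι x)
    rw [e] at h1 h2
    show ((gr ι).dist (ρ (g * ι x)) y : ℝ) ≤ 44
    rw [e]
    linarith

end Pool.Agent.K9h81.CT
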