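import Mathlib

/-!
# Two-step nilpotent groups with a homogeneous norm

The group attached to an alternating bilinear map `V × V → W` of real normed spaces, its
left-invariant homogeneous distance and its dilations.
-/

set_option autoImplicit false

namespace Pool.Agent.K9h81.CT

/-- The data of a two-step nilpotent group: an alternating bilinear map with a bound. -/
structure Dat (V W : Type) [NormedAddCommGroup V] [NormedSpace ℝ V] [NormedAddCommGroup W]
    [NormedSpace ℝ W] where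
  /-- the bilinear map -/
  om : V →ₗ[ℝ] V →ₗ[ℝ] W
  alt : ∀ v, om v v = 0
  bd : ∀ v w, ‖om v w‖ ≤ 2 * ‖v‖ * ‖w‖

variable {V W : Type} [NormedAddCommGroup V] [NormedSpace ℝ V] [NormedAddCommGroup W]
  [NormedSpace ℝ W]

theorem Dat.skew (D : Dat V W) (v w : V) : D.om v w = - D.om w v := by
  have h := D.alt (v + w)
  simp only [map_add, LinearMap.add_apply, D.alt, zero_add, add_zero] at h
  exact eq_neg_of_add_eq_zero_right h

/-- The group. -/
@[ext] structure Nil (D : Dat V W) where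
  /-- the horizontal part -/
  v : V
  /-- the central part -/
  z : W

namespace Nil

variable {D : Dat V W}

instance : Mul (Nil D) := ⟨fun p q => ⟨p.v + q.v, p.z + q.z + D.om p.v q.v⟩⟩
instance : One (Nil D) := ⟨⟨0, 0⟩⟩
instance : Inv (Nil D) := ⟨fun p => ⟨-p.v, -p.z⟩⟩

@[simp] theorem mul_v (p q : Nil D) : (p * q).v = p.v + q.v := rfl
@[simp] theorem mul_z (p q : Nil D) : (p * q).z = p.z + q.z + D.om p.v q.v := rfl
@[simp] theorem one_v : (1 : Nil D).v = 0 := rfl
@[simp] theorem one_z : (1 : Nil D).z = 0 := rfl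
@[simp] theorem inv_v (p : Nil D) : (p⁻¹).v = -p.v := rfl
@[simp] theorem inv_z (p : Nil D) : (p⁻¹).z = -p.z := rfl

instance : Group (Nil D) := Group.ofLeftAxioms
  (fun p q r => by
    ext1
    · simp [add_assoc]
    · simp only [mul_z, mul_v, map_add, LinearMap.add_apply]; abel)
  (fun p => by ext1 <;> simp)
  (fun p => by ext1 <;> simp [D.alt])

/-- The homogeneous norm. -/
noncomputable def nm (p : Nil D) : ℝ := max ‖p.v‖ (√‖p.z‖)

theorem nm_nonneg (p : Nil D) : 0 ≤ p.nm := le_max_of_le_left (norm_nonneg _)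

theorem v_le (p : Nil D) : ‖p.v‖ ≤ p.nm := le_max_left _ _

theorem z_le (p : Nil D) : ‖p.z‖ ≤ p.nm ^ 2 := by
  have h : √‖p.z‖ ≤ p.nm := le_max_right _ _
  calc ‖p.z‖ = √‖p.z‖ ^ 2 := (Real.sq_sqrt (norm_nonneg _)).symm
    _ ≤ p.nm ^ 2 := pow_le_pow_left₀ (Real.sqrt_nonneg _) h 2

theorem nm_le {p : Nil D} {r : ℝ} (hr : 0 ≤ r) (h1 : ‖p.v‖ ≤ r) (h2 : ‖p.z‖ ≤ r ^ 2) :
    p.nm ≤ r := max_le h1 ((Real.sqrt_le_left hr).2 h2)

@[simp] theorem nm_one : (1 : Nil D).nm = 0 := by simp [nm]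

@[simp] theorem nm_inv (p : Nil D) : (p⁻¹).nm = p.nm := by simp [nm]

theorem nm_mul_le (p q : Nil D) : (p * q).nm ≤ p.nm + q.nm := by
  have hp := p.nm_nonneg
  have hq := q.nm_nonneg
  apply nm_le (by positivity)
  · exact (norm_add_le _ _).trans (add_le_add p.v_le q.v_le)
  · have h1 : ‖D.om p.v q.v‖ ≤ 2 * p.nm * q.nm := by
      refine (D.bd _ _).trans ?_
      have := p.v_le
      have := q.v_le
      gcongr
    calc ‖(p * q).z‖ ≤ ‖p.z‖ + ‖q.z‖ + ‖D.om p.v q.v‖ := by
          rw [mul_z]; exact (norm_add_le _ _).trans (by gcongr; exact norm_add_le _ _)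
      _ ≤ p.nm ^ 2 + q.nm ^ 2 + 2 * p.nm * q.nm := by
          have := p.z_le
          have := q.z_le
          gcongr
      _ = (p.nm + q.nm) ^ 2 := by ring

theorem eq_one_of_nm {p : Nil D} (h : p.nm = 0) : p = 1 := by
  have h1 := p.v_le
  have h2 := p.z_le
  rw [h] at h1 h2
  ext1
  · simpa using h1
  · simpa using h2

/-- The dilations. -/
def dil (s : ℝ) (p : Nil D) : Nil D := ⟨s • p.v, s ^ 2 • p.z⟩

@[simp] theorem dil_v (s : ℝ) (p : Nil D) : (dil s p).v = s • p.v := rfl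
@[simp] theorem dil_z (s : ℝ) (p : Nil D) : (dil s p).z = s ^ 2 • p.z := rfl

theorem dil_mul (s : ℝ) (p q : Nil D) : dil s (p * q) = dil s p * dil s q := by
  ext1
  · simp [smul_add]
  · simp only [dil_z, mul_z, dil_v, map_smul, LinearMap.smul_apply, smul_smul, smul_add, sq]

@[simp] theorem dil_inv (s : ℝ) (p : Nil D) : dil s p⁻¹ = (dil s p)⁻¹ := by
  ext1 <;> simp

@[simp] theorem dil_one (s : ℝ) : dil s (1 : Nil D) = 1 := by
  ext1 <;> simp

theorem dil_dil (s t : ℝ) (p : Nil D) : dil s (dil t p) = dil (s * t) p := by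
  ext1 <;> simp [smul_smul, mul_pow]

@[simp] theorem one_dil (p : Nil D) : dil 1 p = p := by
  ext1 <;> simp

@[simp] theorem zero_dil (p : Nil D) : dil 0 p = 1 := by
  ext1 <;> simp

theorem nm_dil {s : ℝ} (hs : 0 ≤ s) (p : Nil D) : (dil s p).nm = s * p.nm := by
  unfold nm
  rw [dil_v, dil_z, norm_smul, norm_smul, Real.norm_of_nonneg hs, Real.norm_of_nonneg (by positivity),
    Real.sqrt_mul (by positivity), Real.sqrt_sq hs, mul_max_of_nonneg _ _ hs]

/-- The horizontal elements. -/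
def hz (D : Dat V W) (a : V) : Nil D := ⟨a, 0⟩

@[simp] theorem hz_v (a : V) : (hz D a).v = a := rfl
@[simp] theorem hz_z (a : V) : (hz D a).z = 0 := rfl
@[simp] theorem nm_hz (a : V) : (hz D a).nm = ‖a‖ := by simp [nm]
@[simp] theorem dil_hz (s : ℝ) (a : V) : dil s (hz D a) = hz D (s • a) := by ext1 <;> simp
@[simp] theorem hz_inv (a : V) : (hz D a)⁻¹ = hz D (-a) := by ext1 <;> simp
@[simp] theorem hz_zero : hz D 0 = 1 := rfl

theorem hz_smul_mul (s t : ℝ) (a : V) : hz D (s • a) * hz D (t • a) = hz D ((s + t) • a) := by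
  ext1
  · simp [add_smul]
  · simp [D.alt]

/-- The central elements. -/
def cz (D : Dat V W) (c : W) : Nil D := ⟨0, c⟩

@[simp] theorem cz_v (c : W) : (cz D c).v = 0 := rfl
@[simp] theorem cz_z (c : W) : (cz D c).z = c := rfl

theorem cz_mul (c d : W) : cz D c * cz D d = cz D (c + d) := by
  ext1 <;> simp

theorem comm_hz (a b : V) :
    hz D a * hz D b * hz D (-a) * hz D (-b) = cz D ((2 : ℝ) • D.om a b) := by
  have h := D.skew b a
  ext1
  · simp
  · simp only [mul_z, hz_z, mul_v, hz_v, map_add, map_neg, LinearMap.add_apply,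
      LinearMap.neg_apply, D.alt, h, cz_z, two_smul]
    abel

theorem hz_mul_cz (a : V) (c : W) : hz D a * cz D c = ⟨a, c⟩ := by
  ext1 <;> simp

/-- The left-invariant distance. -/
noncomputable def dd (p q : Nil D) : ℝ := (p⁻¹ * q).nm

theorem dd_nonneg (p q : Nil D) : 0 ≤ dd p q := nm_nonneg _

@[simp] theorem dd_self (p : Nil D) : dd p p = 0 := by simp [dd]

theorem dd_comm (p q : Nil D) : dd p q = dd q p := by
  unfold dd
  rw [← nm_inv, mul_inv_rev, inv_inv]

theorem dd_tri (p q r : Nil D) : dd p r ≤ dd p q + dd q r := by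
  unfold dd
  have : p⁻¹ * r = (p⁻¹ * q) * (q⁻¹ * r) := by group
  rw [this]
  exact nm_mul_le _ _

@[simp] theorem dd_mul_left (g p q : Nil D) : dd (g * p) (g * q) = dd p q := by
  unfold dd
  congr 1
  group

theorem dd_mul_right (p q : Nil D) : dd p (p * q) = q.nm := by
  unfold dd
  congr 1
  group

theorem dd_dil {s : ℝ} (hs : 0 ≤ s) (p q : Nil D) : dd (dil s p) (dil s q) = s * dd p q := by
  unfold dd
  rw [← dil_inv, ← dil_mul, nm_dil hs]

theorem eq_of_dd {p q : Nil D} (h : dd p q = 0) : p = q := by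
  have := eq_one_of_nm h
  exact inv_mul_eq_one.1 this

theorem one_dd (p : Nil D) : dd 1 p = p.nm := by simp [dd]

end Nil

/-- quasi-isometric embeddings of two-step groups -/
def QE {V' W' : Type} [NormedAddCommGroup V'] [NormedSpace ℝ V'] [NormedAddCommGroup W']
    [NormedSpace ℝ W'] {D : Dat V W} {D' : Dat V' W'} (f : Nil D → Nil D') (K C : ℝ) : Prop :=
  ∀ p q, Nil.dd (f p) (f q) ≤ K * Nil.dd p q + C ∧ Nil.dd p q ≤ K * Nil.dd (f p) (f q) + C

end Pool.Agent.K9h81.CT
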